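import Mathlib

/-!
# Realtime multitape Turing machines and the reversed pattern language

Definitions used in the statement: deterministic multitape Turing machines working in realtime
(one-way read-only input tape, the input head moves right at every step, any finite number of
work tapes), the class `REALTIME`, and the language `L` of the problem.
-/

namespace Pool.Agent.Lib.RT45

/-- The three possible moves of the head of a work tape. -/
inductive Move
  | left
  | stay
  | right

/-- The displacement of a move. -/
def Move.val : Move → ℤ
  | .left => -1
  | .stay => 0
  | .right => 1

/-- A work tape, infinite in both directions: the contents of its cells and the position of its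
head. -/
structure Tape (S : Type) where
  /-- contents of the cells -/
  cell : ℤ → S
  /-- position of the head -/
  head : ℤ

/-- The symbol scanned by the head. -/
def Tape.scan {S : Type} (t : Tape S) : S := t.cell t.head

/-- Write a symbol into the scanned cell, then move the head. -/
def Tape.act {S : Type} (t : Tape S) (s : S) (m : Move) : Tape S :=
  ⟨Function.update t.cell t.head s, t.head + m.val⟩

/-- A deterministic multitape Turing machine with a one-way read-only input tape over the
alphabet `A`, meant to work in realtime: in each step it reads the next input symbol. -/
structure Machine (A : Type) where
  /-- number of work tapes -/
  tapes : ℕ
  /-- the states -/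
  State : Type
  /-- the work tape alphabet -/
  Sym : Type
  /-- there are finitely many states -/
  finState : Finite State
  /-- there are finitely many work tape symbols -/
  finSym : Finite Sym
  /-- the blank symbol -/
  blank : Sym
  /-- the initial state -/
  start : State
  /-- the accepting states -/
  accept : Set State
  /-- the transition function: from the state, the input symbol read in this step and the scanned
  symbols of the work tapes it gives the new state and, for each work tape, the symbol to be
  written and the move of the head -/
  next : State → A → (Fin tapes → Sym) → State × (Fin tapes → Sym × Move)

/-- A configuration of a machine: the state and the work tapes. -/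
structure Config {A : Type} (M : Machine A) where
  /-- the state -/
  state : M.State
  /-- the work tapes -/
  tape : Fin M.tapes → Tape M.Sym

/-- The initial configuration: all work tapes are blank. -/
def Machine.init {A : Type} (M : Machine A) : Config M :=
  ⟨M.start, fun _ => ⟨fun _ => M.blank, 0⟩⟩

/-- One step of the machine, reading the input symbol `a`. -/
def Machine.step {A : Type} (M : Machine A) (c : Config M) (a : A) : Config M :=
  ⟨(M.next c.state a (fun i => (c.tape i).scan)).1,
    fun i => (c.tape i).act ((M.next c.state a (fun i => (c.tape i).scan)).2 i).1
      ((M.next c.state a (fun i => (c.tape i).scan)).2 i).2⟩

/-- The configuration reached after the whole input word `w` has been read, that is after exactly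
`|w|` steps, one input symbol being read in each step. -/
def Machine.run {A : Type} (M : Machine A) (w : List A) : Config M :=
  w.foldl M.step M.init

/-- The machine accepts `w` if its state immediately after the last symbol of `w` has been read is
accepting. -/
def Machine.Accepts {A : Type} (M : Machine A) (w : List A) : Prop :=
  (M.run w).state ∈ M.accept

/-- The class of languages over `A` decided in realtime by deterministic multitape Turing
machines. -/
def REALTIME (A : Type) : Set (Set (List A)) :=
  {L | ∃ M : Machine A, ∀ w : List A, M.Accepts w ↔ w ∈ L}

/-- The alphabet `{0, 1, #}`. -/
inductive Letter
  | bit (b : Bool)
  | hash

/-- The language of the problem: the words `v # u` with `u, v` over `{0, 1}` such that the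
reversal of `v` is a contiguous factor of `u`. -/
def RevPattern : Set (List Letter) :=
  {w | ∃ v u : List Bool, w = v.map Letter.bit ++ Letter.hash :: u.map Letter.bit ∧
    ∃ u₁ u₂ : List Bool, u = u₁ ++ v.reverse ++ u₂}

end Pool.Agent.Lib.RT45
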