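import Mathlib
import Pool.Agent.Lib.MP_4589a7_lc.Model

/-!
# Stack programs with a bounded number of micro steps per input symbol run in realtime
-/

namespace Pool.Agent.Lib.RT45

/-- Operations on a stack. -/
inductive Op (G : Type)
  | keep
  | pop
  | push (g : G)

/-- Effect of an operation on a stack (the top is the head of the list). -/
def Op.app {G : Type} : Op G → List G → List G
  | .keep, l => l
  | .pop, l => l.tail
  | .push g, l => g :: l

/-- A stack program: finite control `Q`, stacks indexed by `Ix` over the alphabet `G`; an input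
symbol triggers the operations `inp` and after that `c` micro steps `mic`. -/
structure Prog (A : Type) where
  Q : Type
  Ix : Type
  G : Type
  finQ : Finite Q
  finIx : Fintype Ix
  finG : Finite G
  q0 : Q
  acc : Set Q
  inp : Q → A → Q × (Ix → Op G)
  mic : Q → (Ix → Option G) → Q × (Ix → Op G)
  c : ℕ

variable {A : Type}

/-- One micro step. -/
def Prog.micS (P : Prog A) (s : P.Q × (P.Ix → List P.G)) : P.Q × (P.Ix → List P.G) :=
  ((P.mic s.1 (fun i => (s.2 i).head?)).1,
    fun i => ((P.mic s.1 (fun i => (s.2 i).head?)).2 i).app (s.2 i))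

/-- The input operation. -/
def Prog.inpS (P : Prog A) (s : P.Q × (P.Ix → List P.G)) (a : A) : P.Q × (P.Ix → List P.G) :=
  ((P.inp s.1 a).1, fun i => ((P.inp s.1 a).2 i).app (s.2 i))

/-- Processing of one input symbol. -/
def Prog.stepS (P : Prog A) (s : P.Q × (P.Ix → List P.G)) (a : A) : P.Q × (P.Ix → List P.G) :=
  (P.micS)^[P.c] (P.inpS s a)

/-- The run of a stack program. -/
def Prog.runS (P : Prog A) (w : List A) : P.Q × (P.Ix → List P.G) :=
  w.foldl P.stepS (P.q0, fun _ => [])

theorem op_app_append {G : Type} (o : Op G) (l r : List G) (h : l ≠ [] ∨ r = []) :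
    o.app (l ++ r) = o.app l ++ r := by
  cases o with
  | keep => rfl
  | pop =>
    rcases h with h | h
    · cases l with
      | nil => exact absurd rfl h
      | cons a l => rfl
    · subst h; simp [Op.app]
  | push g => rfl

theorem op_app_len {G : Type} (o : Op G) (l : List G) :
    (o.app l).length ≤ l.length + 1 ∧ l.length ≤ (o.app l).length + 1 := by
  cases o <;> simp [Op.app] <;> omega

theorem micS_local (P : Prog A) (q : P.Q) (B R : P.Ix → List P.G)
    (h : ∀ i, B i ≠ [] ∨ R i = []) :
    P.micS (q, fun i => B i ++ R i) =
      ((P.micS (q, B)).1, fun i => (P.micS (q, B)).2 i ++ R i) := by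
  have hh : (fun i => (B i ++ R i).head?) = fun i => (B i).head? := by
    funext i
    rcases h i with h | h
    · cases hB : B i with
      | nil => exact absurd hB h
      | cons a l => rfl
    · rw [h]; simp
  unfold Prog.micS
  simp only [hh]
  congr 1
  funext i
  exact op_app_append _ _ _ (h i)

theorem micS_iter (P : Prog A) (n : ℕ) :
    ∀ (q : P.Q) (B R : P.Ix → List P.G), (∀ i, n ≤ (B i).length ∨ R i = []) →
    (P.micS)^[n] (q, fun i => B i ++ R i) =
      (((P.micS)^[n] (q, B)).1, fun i => ((P.micS)^[n] (q, B)).2 i ++ R i) ∧
    ∀ i, (((P.micS)^[n] (q, B)).2 i).length ≤ (B i).length + n ∧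
      (B i).length ≤ (((P.micS)^[n] (q, B)).2 i).length + n := by
  induction n with
  | zero => intro q B R _; simp
  | succ n ih =>
    intro q B R h
    have h1 : ∀ i, B i ≠ [] ∨ R i = [] := by
      intro i
      rcases h i with h | h
      · left; intro h0; rw [h0] at h; simp at h
      · exact Or.inr h
    have hl : ∀ i, ((P.micS (q, B)).2 i).length ≤ (B i).length + 1 ∧
        (B i).length ≤ ((P.micS (q, B)).2 i).length + 1 := fun i => op_app_len _ _
    have h2 : ∀ i, n ≤ ((P.micS (q, B)).2 i).length ∨ R i = [] := by
      intro i
      rcases h i with h | h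
      · left; have := (hl i).2; omega
      · exact Or.inr h
    have h3 := ih (P.micS (q, B)).1 (P.micS (q, B)).2 R h2
    rw [Function.iterate_succ_apply, Function.iterate_succ_apply, micS_local P q B R h1]
    refine ⟨h3.1, fun i => ?_⟩
    have h4 := h3.2 i
    have h5 := hl i
    simp only [Prod.mk.eta] at h4
    constructor <;> omega

/-- lists of bounded length -/
abbrev LB (G : Type) (n : ℕ) : Type := {l : List G // l.length ≤ n}

instance finLB {G : Type} [Finite G] (n : ℕ) : Finite (LB G n) :=
  (List.finite_length_le G n).to_subtype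

/-- cut a list to length `n` -/
def clip {G : Type} (n : ℕ) (l : List G) : LB G n := ⟨l.take n, by simp⟩

theorem clip_val {G : Type} (n : ℕ) (l : List G) (h : l.length ≤ n) : (clip n l).1 = l :=
  List.take_of_length_le h

/-- a tape contains the blocks `bs` as a pushdown store -/
def Rep {S : Type} (f : ℤ → Option S) : List S → Prop
  | [] => f 0 = none
  | b :: bs => f (bs.length + 1) = some b ∧ Rep f bs

theorem rep_update {S : Type} (f : ℤ → Option S) (bs : List S) (n : ℤ) (x : Option S)
    (hn : (bs.length : ℤ) < n) (h : Rep f bs) : Rep (Function.update f n x) bs := by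
  induction bs with
  | nil =>
    simp only [Rep, List.length_nil, Nat.cast_zero] at *
    rw [Function.update_of_ne (by omega), h]
  | cons b bs ih =>
    simp only [Rep, List.length_cons, Nat.cast_add, Nat.cast_one] at *
    refine ⟨?_, ih (by omega) h.2⟩
    rw [Function.update_of_ne (by omega), h.1]

theorem rep_scan {S : Type} (f : ℤ → Option S) (bs : List S) (h : Rep f bs) :
    f (bs.length : ℤ) = bs.head? := by
  cases bs with
  | nil => simpa [Rep] using h
  | cons b bs => simpa [Rep] using h.1

/-- the effective contents of a tape with a pending symbol -/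
def eff {S : Type} (t : Tape (Option S)) (p : Option S) : ℤ → Option S :=
  match p with
  | none => t.cell
  | some b => Function.update t.cell t.head (some b)

/-- the effective scanned symbol -/
def effTop {S : Type} (sc : Option S) (p : Option S) : Option S :=
  match p with
  | none => sc
  | some b => some b

theorem eff_head {S : Type} (t : Tape (Option S)) (p : Option S) :
    eff t p t.head = effTop t.scan p := by
  cases p <;> simp [eff, effTop, Tape.scan]

theorem eff_write {S : Type} (t : Tape (Option S)) (p : Option S) :
    Function.update t.cell t.head (effTop t.scan p) = eff t p := by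
  cases p <;> simp [eff, effTop, Tape.scan]

/-- relation between a tape (with pending symbol) and a list of blocks -/
def TRep {S : Type} (t : Tape (Option S)) (p : Option S) (bs : List S) : Prop :=
  t.head = bs.length ∧ Rep (eff t p) bs

theorem trep_top {S : Type} {t : Tape (Option S)} {p : Option S} {bs : List S}
    (h : TRep t p bs) : effTop t.scan p = bs.head? := by
  rw [← eff_head, h.1]
  exact rep_scan _ _ h.2

theorem trep_stay {S : Type} {t : Tape (Option S)} {p : Option S} {bs : List S}
    (h : TRep t p bs) : TRep (t.act (effTop t.scan p) Move.stay) none bs := by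
  refine ⟨by simp [Tape.act, Move.val, h.1], ?_⟩
  have : eff (t.act (effTop t.scan p) Move.stay) none = eff t p := by
    show Function.update t.cell t.head (effTop t.scan p) = eff t p
    exact eff_write t p
  rw [this]; exact h.2

theorem trep_pop {S : Type} {t : Tape (Option S)} {p : Option S} {b : S} {bs : List S}
    (h : TRep t p (b :: bs)) : TRep (t.act (effTop t.scan p) Move.left) none bs := by
  refine ⟨by simp [Tape.act, Move.val, h.1], ?_⟩
  have : eff (t.act (effTop t.scan p) Move.left) none = eff t p := by
    show Function.update t.cell t.head (effTop t.scan p) = eff t p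
    exact eff_write t p
  rw [this]; exact h.2.2

theorem trep_push {S : Type} {t : Tape (Option S)} {p : Option S} {bs : List S} (b : S)
    (h : TRep t p bs) : TRep (t.act (effTop t.scan p) Move.right) (some b) (b :: bs) := by
  have hh : (t.act (effTop t.scan p) Move.right).head = (bs.length : ℤ) + 1 := by
    simp [Tape.act, Move.val, h.1]
  have he : eff (t.act (effTop t.scan p) Move.right) (some b) =
      Function.update (eff t p) ((bs.length : ℤ) + 1) (some b) := by
    show Function.update (Function.update t.cell t.head (effTop t.scan p)) _ (some b) = _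
    rw [eff_write, hh]
  refine ⟨by rw [hh]; simp, ?_⟩
  rw [he]
  refine ⟨by simp, rep_update _ _ _ _ (by omega) h.2⟩

section Sim

variable (P : Prog A)

/-- the number of micro operations per input symbol -/
def bb : ℕ := P.c + 1

/-- states of the simulating machine -/
abbrev SimState : Type :=
  P.Q × (P.Ix → LB P.G (3 * bb P)) × (P.Ix → Option (LB P.G (bb P)))

/-- buffers after the micro steps -/
noncomputable def newBuf (q : P.Q) (buf : P.Ix → LB P.G (3 * bb P)) (a : A) :
    P.Q × (P.Ix → List P.G) :=
  (P.micS)^[P.c] (P.inpS (q, fun i => (buf i).1) a)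

/-- new buffer, pending block and move for one stack, from the buffer after the micro steps and
the top block -/
def fixBuf (b : ℕ) {G : Type} (l : List G) (top : Option (LB G b)) :
    LB G (3 * b) × Option (LB G b) × Move :=
  if 2 * b < l.length then
    (clip (3 * b) (l.take (l.length - b)), some (clip b (l.drop (l.length - b))), Move.right)
  else if l.length < b then
    match top with
    | none => (clip (3 * b) l, none, Move.stay)
    | some t => (clip (3 * b) (l ++ t.1), none, Move.left)
  else (clip (3 * b) l, none, Move.stay)

/-- The simulating machine. -/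
noncomputable def simM : Machine A :=
  letI := P.finIx
  { tapes := Fintype.card P.Ix
    State := SimState P
    Sym := Option (LB P.G (bb P))
    finState := by
      haveI := P.finQ
      haveI := P.finG
      exact inferInstance
    finSym := by
      haveI := P.finG
      exact inferInstance
    blank := none
    start := (P.q0, (fun _ => ⟨[], by simp⟩), fun _ => none)
    accept := {s | s.1 ∈ P.acc}
    next := fun s a sc =>
      let r := newBuf P s.1 s.2.1 a
      let f := fun i => fixBuf (bb P) (r.2 i) (effTop (sc (Fintype.equivFin P.Ix i)) (s.2.2 i))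
      ((r.1, (fun i => (f i).1), fun i => (f i).2.1),
        fun j => (effTop (sc j) (s.2.2 ((Fintype.equivFin P.Ix).symm j)),
          (f ((Fintype.equivFin P.Ix).symm j)).2.2)) }

/-- The invariant for one stack. -/
def SInv (b : ℕ) {G : Type} (S : List G) (buf : LB G (3 * b)) (p : Option (LB G b))
    (t : Tape (Option (LB G b))) : Prop :=
  ∃ bs : List (LB G b), S = buf.1 ++ (bs.map Subtype.val).flatten ∧
    (∀ x ∈ bs, x.1.length = b) ∧ (b ≤ buf.1.length ∨ bs = []) ∧ TRep t p bs

theorem fix_ok {b : ℕ} {G : Type} (l : List G) (bs : List (LB G b))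
    (hbs : ∀ x ∈ bs, x.1.length = b) (hl : l.length ≤ 4 * b) (hb : 0 < b)
    (p : Option (LB G b)) (t : Tape (Option (LB G b))) (ht : TRep t p bs) :
    SInv b (l ++ (bs.map Subtype.val).flatten) (fixBuf b l (effTop t.scan p)).1
      (fixBuf b l (effTop t.scan p)).2.1
      (t.act (effTop t.scan p) (fixBuf b l (effTop t.scan p)).2.2) := by
  unfold fixBuf
  split_ifs with h1 h2
  · -- push
    have e1 : (clip (3 * b) (l.take (l.length - b))).1 = l.take (l.length - b) :=
      clip_val _ _ (by rw [List.length_take]; omega)
    have e2 : (clip b (l.drop (l.length - b))).1 = l.drop (l.length - b) :=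
      clip_val _ _ (by rw [List.length_drop]; omega)
    refine ⟨clip b (l.drop (l.length - b)) :: bs, ?_, ?_, ?_, trep_push _ ht⟩
    · simp only [List.map_cons, List.flatten_cons]
      rw [e1, e2, ← List.append_assoc, List.take_append_drop]
    · intro x hx
      rcases List.mem_cons.1 hx with hx | hx
      · rw [hx, e2, List.length_drop]; omega
      · exact hbs x hx
    · left
      simp only
      rw [e1, List.length_take]; omega
  · -- pop
    rw [trep_top ht]
    cases bs with
    | nil =>
      simp only [List.head?_nil]
      refine ⟨[], ?_, by simp, Or.inr rfl, ?_⟩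
      · rw [clip_val _ _ (by omega)]
      · have := trep_stay ht
        rw [trep_top ht] at this
        exact this
    | cons x bs =>
      simp only [List.head?_cons]
      have hx : x.1.length = b := hbs x (by simp)
      have e1 : (clip (3 * b) (l ++ x.1)).1 = l ++ x.1 :=
        clip_val _ _ (by rw [List.length_append]; omega)
      refine ⟨bs, ?_, fun y hy => hbs y (by simp [hy]), ?_, ?_⟩
      · rw [e1]; simp
      · left; rw [e1, List.length_append]; omega
      · have := trep_pop ht
        rw [trep_top ht] at this
        exact this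
  · -- stay
    refine ⟨bs, ?_, hbs, ?_, trep_stay ht⟩
    · rw [clip_val _ _ (by omega)]
    · left; rw [clip_val _ _ (by omega)]; omega

/-- The simulation relation. -/
def Sim (s : P.Q × (P.Ix → List P.G)) (c : Config (simM P)) : Prop :=
  letI := P.finIx
  c.state.1 = s.1 ∧ ∀ i, SInv (bb P) (s.2 i) (c.state.2.1 i) (c.state.2.2 i)
    (c.tape (Fintype.equivFin P.Ix i))

theorem sim_step (s : P.Q × (P.Ix → List P.G)) (c : Config (simM P)) (a : A)
    (h : Sim P s c) : Sim P (P.stepS s a) ((simM P).step c a) := by
  letI := P.finIx
  obtain ⟨h1, h2⟩ := h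
  choose bs hS hlen hsize hrep using h2
  -- buffers as functions
  set B : P.Ix → List P.G := fun i => (c.state.2.1 i).1 with hB
  set R : P.Ix → List P.G := fun i => ((bs i).map Subtype.val).flatten with hR
  have hs : s = (c.state.1, fun i => B i ++ R i) := by
    ext1
    · exact h1.symm
    · funext i; exact hS i
  have hBR : ∀ i, bb P ≤ (B i).length ∨ R i = [] := by
    intro i
    rcases hsize i with h | h
    · exact Or.inl h
    · right; simp only [hR, h]; rfl
  have hB3 : ∀ i, (B i).length ≤ 3 * bb P := fun i => (c.state.2.1 i).2
  -- the input step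
  have hinp : P.inpS s a = ((P.inpS (c.state.1, B) a).1,
      fun i => (P.inpS (c.state.1, B) a).2 i ++ R i) := by
    rw [hs]
    unfold Prog.inpS
    simp only
    congr 1
    funext i
    apply op_app_append
    rcases hBR i with h | h
    · left
      intro h0
      rw [h0] at h
      simp [bb] at h
    · exact Or.inr h
  have hinpl : ∀ i, ((P.inpS (c.state.1, B) a).2 i).length ≤ (B i).length + 1 ∧
      (B i).length ≤ ((P.inpS (c.state.1, B) a).2 i).length + 1 := fun i => op_app_len _ _
  have hit := micS_iter P P.c (P.inpS (c.state.1, B) a).1 (P.inpS (c.state.1, B) a).2 R (by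
    intro i
    rcases hBR i with h | h
    · left
      have := (hinpl i).2
      unfold bb at h
      omega
    · exact Or.inr h)
  have hnew : newBuf P c.state.1 c.state.2.1 a =
      (P.micS)^[P.c] ((P.inpS (c.state.1, B) a).1, (P.inpS (c.state.1, B) a).2) := rfl
  have hstep : P.stepS s a = ((newBuf P c.state.1 c.state.2.1 a).1,
      fun i => (newBuf P c.state.1 c.state.2.1 a).2 i ++ R i) := by
    unfold Prog.stepS
    rw [hinp, hit.1, hnew]
  have hlenN : ∀ i, ((newBuf P c.state.1 c.state.2.1 a).2 i).length ≤ 4 * bb P := by
    intro i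
    have e1 := (hit.2 i).1
    have e2 := (hinpl i).1
    have e3 := hB3 i
    rw [hnew]
    unfold bb at *
    omega
  rw [hstep]
  refine ⟨rfl, fun i => ?_⟩
  have key := fix_ok (b := bb P) ((newBuf P c.state.1 c.state.2.1 a).2 i) (bs i) (hlen i)
    (hlenN i) (by unfold bb; omega) (c.state.2.2 i) (c.tape (Fintype.equivFin P.Ix i)) (hrep i)
  have e : (Fintype.equivFin P.Ix).symm (Fintype.equivFin P.Ix i) = i :=
    Equiv.symm_apply_apply _ _
  have g1 : ((simM P).step c a).state.2.1 i = (fixBuf (bb P)
      ((newBuf P c.state.1 c.state.2.1 a).2 i)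
      (effTop (c.tape (Fintype.equivFin P.Ix i)).scan (c.state.2.2 i))).1 := rfl
  have g2 : ((simM P).step c a).state.2.2 i = (fixBuf (bb P)
      ((newBuf P c.state.1 c.state.2.1 a).2 i)
      (effTop (c.tape (Fintype.equivFin P.Ix i)).scan (c.state.2.2 i))).2.1 := rfl
  have g3 : ((simM P).step c a).tape (Fintype.equivFin P.Ix i) =
      (c.tape (Fintype.equivFin P.Ix i)).act
        (effTop (c.tape (Fintype.equivFin P.Ix i)).scan
          (c.state.2.2 ((Fintype.equivFin P.Ix).symm (Fintype.equivFin P.Ix i))))
        (fixBuf (bb P) ((newBuf P c.state.1 c.state.2.1 a).2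
            ((Fintype.equivFin P.Ix).symm (Fintype.equivFin P.Ix i)))
          (effTop (c.tape (Fintype.equivFin P.Ix
            ((Fintype.equivFin P.Ix).symm (Fintype.equivFin P.Ix i)))).scan
            (c.state.2.2 ((Fintype.equivFin P.Ix).symm (Fintype.equivFin P.Ix i))))).2.2 := rfl
  rw [g1, g2, g3, e]
  exact key

theorem sim_init : Sim P (P.q0, fun _ => []) (simM P).init := by
  letI := P.finIx
  refine ⟨rfl, fun i => ⟨[], rfl, by simp, Or.inr rfl, ?_⟩⟩
  exact ⟨rfl, rfl⟩

theorem sim_run (w : List A) : Sim P (P.runS w) ((simM P).run w) := by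
  have : ∀ (w : List A) (s : P.Q × (P.Ix → List P.G)) (c : Config (simM P)), Sim P s c →
      Sim P (w.foldl P.stepS s) (w.foldl (simM P).step c) := by
    intro w
    induction w with
    | nil => intro s c h; exact h
    | cons a w ih => intro s c h; exact ih _ _ (sim_step P s c a h)
  exact this w _ _ (sim_init P)

/-- **Speed-up theorem**: the language of a stack program is in `REALTIME`. -/
theorem realtime_of_prog : {w : List A | (P.runS w).1 ∈ P.acc} ∈ REALTIME A := by
  refine ⟨simM P, fun w => ?_⟩
  have h := (sim_run P w).1
  show ((simM P).run w).state.1 ∈ P.acc ↔ (P.runS w).1 ∈ P.acc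
  rw [h]

end Sim

end Pool.Agent.Lib.RT45
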