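import Mathlib
import Pool.Agent.Lib.MP_4589a7_lc.Model
import Pool.Agent.Lib.MP_4589a7_lc.Speedup

/-!
# The stack program
-/

namespace Pool.Agent.Lib.RT45

/-- program locations -/
inductive PC
  | read | dead | found | init | init2 | main | emit | cat | rev (r : Bool) | cp | sh | cb
  | qrev | rw1 | rw2 | rw3

/-- finite control -/
structure St where
  pc : PC
  ph : Bool
  tg : Bool

/-- names of the stacks -/
inductive Ix
  | XL | XR | Y | SL | SR | P | N | M | E | I0 | I1 | O

/-- the tops of the stacks -/
structure View where
  XL : Option Bool
  XR : Option Bool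
  Y : Option Bool
  SL : Option Bool
  SR : Option Bool
  P : Option Bool
  N : Option Bool
  M : Option Bool
  E : Option Bool
  nw : Option Bool
  old : Option Bool
  O : Option Bool

/-- the operations carried out in a micro step -/
structure Act where
  pc : PC
  ph : Bool
  flip : Bool := false
  XL : Op Bool := .keep
  XR : Op Bool := .keep
  Y : Op Bool := .keep
  SL : Op Bool := .keep
  SR : Op Bool := .keep
  P : Op Bool := .keep
  N : Op Bool := .keep
  M : Op Bool := .keep
  E : Op Bool := .keep
  nw : Op Bool := .keep
  old : Op Bool := .keep
  O : Op Bool := .keep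

/-- push an optional symbol -/
def pushOpt : Option Bool → Op Bool
  | none => .keep
  | some g => .push g

/-- the micro steps -/
def act (pc : PC) (ph : Bool) (v : View) : Act :=
  match pc with
  | .read => {pc := .read, ph := ph}
  | .dead => {pc := .dead, ph := ph}
  | .found => {pc := .found, ph := ph}
  | .init =>
    match v.XR with
    | none => {pc := .found, ph := ph}
    | some _ => {pc := .init2, ph := ph, Y := .pop, P := .push true}
  | .init2 => {pc := .main, ph := ph, P := .push false}
  | .main =>
    match v.SR, v.P with
    | none, some _ => {pc := .rev false, ph := ph}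
    | sr, _ =>
      match v.XR with
      | none => {pc := .found, ph := ph}
      | some a =>
        match (if ph then v.O else v.Y) with
        | none =>
          if ph then
            match v.nw with
            | none => {pc := .main, ph := ph}
            | some _ => {pc := .qrev, ph := ph, flip := true}
          else {pc := .rw1, ph := ph}
        | some b =>
          if a = b then
            { pc := .main, ph := ph, XR := .pop, XL := .push a
              O := if ph then .pop else .keep
              Y := if ph then .keep else .pop
              P := if ph then .keep else .push false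
              SR := .pop, SL := pushOpt sr
              N := if sr = some true then .push true else .keep
              E := if sr = some true then .push true else .keep }
          else
            match v.XL with
            | none => {pc := .emit, ph := ph, P := if ph then .keep else .push true}
            | some _ => {pc := .cat, ph := ph}
  | .emit =>
    { pc := .main, ph := ph
      O := if ph then .pop else .keep
      Y := if ph then .keep else .pop
      P := if ph then .keep else .push false }
  | .cat =>
    match v.E with
    | none => {pc := .cp, ph := ph}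
    | some _ =>
      match v.SR with
      | none => {pc := .rev true, ph := ph}
      | some g =>
        { pc := .cat, ph := ph, SR := .pop, SL := .push g
          N := if g then .push true else .keep
          E := if g then .keep else .pop }
  | .rev r =>
    match v.P with
    | none => {pc := if r then .cat else .main, ph := ph}
    | some g => {pc := .rev r, ph := ph, P := .pop, SR := .push g}
  | .cp =>
    match v.N with
    | none => {pc := .sh, ph := ph}
    | some _ => {pc := .cp, ph := ph, N := .pop, E := .push true, M := .push true}
  | .sh =>
    match v.SL with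
    | some true => {pc := .sh, ph := ph, SL := .pop, SR := .push true, M := .pop}
    | _ =>
      match v.E with
      | none => {pc := .cb, ph := ph}
      | some _ =>
        { pc := .sh, ph := ph, E := .pop, SL := .pop, SR := .push false, XL := .pop
          XR := pushOpt v.XL, P := if ph then .keep else .push true }
  | .cb =>
    match v.M with
    | none => {pc := .main, ph := ph}
    | some _ => {pc := .cb, ph := ph, M := .pop, N := .push true}
  | .qrev =>
    match v.old with
    | none => {pc := .main, ph := ph}
    | some g => {pc := .qrev, ph := ph, old := .pop, O := .push g}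
  | .rw1 =>
    match v.XL, v.SR, v.N, v.E with
    | none, none, none, none => {pc := .rw2, ph := ph}
    | xl, sr, _, _ =>
      { pc := .rw1, ph := ph, XL := .pop, XR := pushOpt xl, SR := .pop, SL := pushOpt sr
        N := .pop, E := .pop }
  | .rw2 =>
    match v.P with
    | none => {pc := .rw3, ph := ph}
    | some g => {pc := .rw2, ph := ph, P := .pop, SR := .push g}
  | .rw3 =>
    match v.SL with
    | none => {pc := .main, ph := true}
    | some g => {pc := .rw3, ph := ph, SL := .pop, SR := .push g}

/-- abstract configurations -/
structure AC where
  pc : PC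
  ph : Bool
  tg : Bool
  XL : List Bool
  XR : List Bool
  Y : List Bool
  SL : List Bool
  SR : List Bool
  P : List Bool
  N : List Bool
  M : List Bool
  E : List Bool
  nw : List Bool
  old : List Bool
  O : List Bool

/-- the view of a configuration -/
def AC.view (s : AC) : View :=
  ⟨s.XL.head?, s.XR.head?, s.Y.head?, s.SL.head?, s.SR.head?, s.P.head?, s.N.head?, s.M.head?,
    s.E.head?, s.nw.head?, s.old.head?, s.O.head?⟩

/-- applying operations -/
def AC.app (s : AC) (a : Act) : AC :=
  ⟨a.pc, a.ph, bif a.flip then !s.tg else s.tg, a.XL.app s.XL, a.XR.app s.XR, a.Y.app s.Y,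
    a.SL.app s.SL, a.SR.app s.SR, a.P.app s.P, a.N.app s.N, a.M.app s.M, a.E.app s.E,
    bif a.flip then a.old.app s.old else a.nw.app s.nw,
    bif a.flip then a.nw.app s.nw else a.old.app s.old, a.O.app s.O⟩

/-- abstract micro step -/
def astep (s : AC) : AC := s.app (act s.pc s.ph s.view)

/-- abstract input step -/
def ainp (s : AC) (l : Letter) : AC :=
  match s.pc, l with
  | .read, .bit b => {s with XR := b :: s.XR, Y := b :: s.Y}
  | .read, .hash => {s with pc := .init}
  | .dead, _ => s
  | .found, .bit _ => s
  | _, .hash => {s with pc := .dead}
  | _, .bit b => {s with nw := b :: s.nw}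

/-- initial abstract configuration -/
def ainit : AC := ⟨.read, false, false, [], [], [], [], [], [], [], [], [], [], [], []⟩

/-- concrete configurations -/
def conc (s : AC) : St × (Ix → List Bool) :=
  (⟨s.pc, s.ph, s.tg⟩, fun i => match i with
    | .XL => s.XL | .XR => s.XR | .Y => s.Y | .SL => s.SL | .SR => s.SR | .P => s.P
    | .N => s.N | .M => s.M | .E => s.E
    | .I0 => bif s.tg then s.old else s.nw
    | .I1 => bif s.tg then s.nw else s.old
    | .O => s.O)

/-- the view of the concrete tops -/
def cview (q : St) (t : Ix → Option Bool) : View :=
  ⟨t .XL, t .XR, t .Y, t .SL, t .SR, t .P, t .N, t .M, t .E, bif q.tg then t .I1 else t .I0,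
    bif q.tg then t .I0 else t .I1, t .O⟩

/-- concrete operations -/
def cop (tg : Bool) (a : Act) : Ix → Op Bool
  | .XL => a.XL | .XR => a.XR | .Y => a.Y | .SL => a.SL | .SR => a.SR | .P => a.P
  | .N => a.N | .M => a.M | .E => a.E
  | .I0 => bif tg then a.old else a.nw
  | .I1 => bif tg then a.nw else a.old
  | .O => a.O

/-- concrete input operations -/
def cinp (q : St) (l : Letter) : St × (Ix → Op Bool) :=
  match q.pc, l with
  | .read, .bit b => (q, fun i => match i with
    | .XR => .push b
    | .Y => .push b
    | _ => .keep)
  | .read, .hash => ({q with pc := .init}, fun _ => .keep)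
  | .dead, _ => (q, fun _ => .keep)
  | .found, .bit _ => (q, fun _ => .keep)
  | _, .hash => ({q with pc := .dead}, fun _ => .keep)
  | _, .bit b => (q, fun i => match i with
    | .I0 => bif q.tg then .keep else .push b
    | .I1 => bif q.tg then .push b else .keep
    | _ => .keep)

def PC.code : PC → Fin 17
  | .read => 0 | .dead => 1 | .found => 2 | .init => 3 | .init2 => 4 | .main => 5 | .emit => 6
  | .cat => 7 | .rev r => bif r then 8 else 9 | .cp => 10 | .sh => 11 | .cb => 12 | .qrev => 13
  | .rw1 => 14 | .rw2 => 15 | .rw3 => 16

theorem PC.code_inj : Function.Injective PC.code := by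
  intro a b h
  cases a <;> cases b <;> first
    | rfl
    | (rename_i r r'; cases r <;> cases r' <;> first | rfl | (exact absurd h (by decide)))
    | (rename_i r; cases r <;> exact absurd h (by decide))
    | (exact absurd h (by decide))

theorem finSt : Finite St := by
  have : Function.Injective (fun s : St => (s.pc.code, s.ph, s.tg)) := by
    intro a b h
    obtain ⟨p, q, r⟩ := a
    obtain ⟨p', q', r'⟩ := b
    simp only [Prod.mk.injEq] at h
    obtain ⟨h1, h2, h3⟩ := h
    rw [PC.code_inj h1, h2, h3]
  exact Finite.of_injective _ this

def Ix.code : Ix → Fin 12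
  | .XL => 0 | .XR => 1 | .Y => 2 | .SL => 3 | .SR => 4 | .P => 5 | .N => 6 | .M => 7
  | .E => 8 | .I0 => 9 | .I1 => 10 | .O => 11

theorem Ix.code_inj : Function.Injective Ix.code := by
  intro a b h
  cases a <;> cases b <;> first
    | rfl
    | (exact absurd h (by decide))

@[instance_reducible] noncomputable def finIx' : Fintype Ix := Fintype.ofInjective Ix.code Ix.code_inj

/-- The stack program for the reversed pattern language. -/
noncomputable def theProg : Prog Letter where
  Q := St
  Ix := Ix
  G := Bool
  finQ := finSt
  finIx := finIx'
  finG := inferInstance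
  q0 := ⟨.read, false, false⟩
  acc := {s | s.pc = .found}
  inp := cinp
  mic := fun q t =>
    (⟨(act q.pc q.ph (cview q t)).pc, (act q.pc q.ph (cview q t)).ph,
      bif (act q.pc q.ph (cview q t)).flip then !q.tg else q.tg⟩,
      cop q.tg (act q.pc q.ph (cview q t)))
  c := 47

/-- `conc` with the types of the program -/
def cc (s : AC) : theProg.Q × (theProg.Ix → List theProg.G) := conc s

theorem cview_conc (s : AC) : cview (conc s).1 (fun i => ((conc s).2 i).head?) = s.view := by
  obtain ⟨pc, ph, tg, XL, XR, Y, SL, SR, P, N, M, E, nw, old, O⟩ := s
  cases tg <;> rfl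

theorem conc_mic (s : AC) : theProg.micS (cc s) = cc (astep s) := by
  have h := cview_conc s
  have h1 : theProg.micS (cc s) =
      (⟨(act s.pc s.ph (cview (conc s).1 (fun i => ((conc s).2 i).head?))).pc,
        (act s.pc s.ph (cview (conc s).1 (fun i => ((conc s).2 i).head?))).ph,
        bif (act s.pc s.ph (cview (conc s).1 (fun i => ((conc s).2 i).head?))).flip
          then !s.tg else s.tg⟩,
      fun i => (cop s.tg (act s.pc s.ph (cview (conc s).1
        (fun i => ((conc s).2 i).head?))) i).app ((conc s).2 i)) := rfl
  rw [h1, h]
  unfold astep
  generalize act s.pc s.ph s.view = a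
  obtain ⟨pc, ph, tg, XL, XR, Y, SL, SR, P, N, M, E, nw, old, O⟩ := s
  obtain ⟨pc', ph', fl, aXL, aXR, aY, aSL, aSR, aP, aN, aM, aE, anw, aold, aO⟩ := a
  refine Prod.ext rfl ?_
  funext i
  cases tg <;> cases fl <;> cases i <;> rfl

theorem conc_inp (s : AC) (l : Letter) : theProg.inpS (cc s) l = cc (ainp s l) := by
  obtain ⟨pc, ph, tg, XL, XR, Y, SL, SR, P, N, M, E, nw, old, O⟩ := s
  cases pc <;> cases l <;> cases tg <;> refine Prod.ext rfl ?_ <;> funext i <;> cases i <;> rfl

/-- abstract processing of one input symbol -/
def atot (s : AC) (l : Letter) : AC := astep^[47] (ainp s l)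

theorem conc_tot (s : AC) (l : Letter) : theProg.stepS (cc s) l = cc (atot s l) := by
  have hs : Function.Semiconj cc astep theProg.micS := fun s => (conc_mic s).symm
  have h1 : theProg.stepS (cc s) l = (theProg.micS)^[47] (theProg.inpS (cc s) l) := rfl
  rw [h1, conc_inp]
  exact ((hs.iterate_right 47) (ainp s l)).symm

theorem foldl_semiconj {S T A : Type} (f : S → T) (g : S → A → S) (h : T → A → T)
    (H : ∀ s a, h (f s) a = f (g s a)) (w : List A) (s : S) :
    w.foldl h (f s) = f (w.foldl g s) := by
  induction w generalizing s with
  | nil => rfl
  | cons a w ih => rw [List.foldl_cons, List.foldl_cons, H, ih]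

theorem conc_run (w : List Letter) : theProg.runS w = cc (w.foldl atot ainit) := by
  have h0 : ((theProg.q0, fun _ => []) : theProg.Q × (theProg.Ix → List theProg.G)) =
      cc ainit := by
    refine Prod.ext rfl ?_
    funext i
    cases i <;> rfl
  unfold Prog.runS
  rw [h0]
  exact foldl_semiconj cc atot theProg.stepS conc_tot w ainit

end Pool.Agent.Lib.RT45
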