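import Mathlib
import Pool.Agent.Lib.MP_4589a7_lc.Algo

section

/-!
# Borders, periods and the shift log of a word; correctness of the pattern search
-/

namespace Pool.Agent.Lib.RT45

variable (x : List Bool)

open Classical in
/-- length of the longest proper border of `x.take i` -/
noncomputable def bd (i : ℕ) : ℕ :=
  Nat.findGreatest (fun r => r < i ∧ x.take r <:+ x.take i) i

/-- smallest period of `x.take i` -/
noncomputable def per (i : ℕ) : ℕ := i - bd x i

/-- the shift log -/
noncomputable def slog : ℕ → List Bool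
  | 0 => []
  | n + 1 => slog n ++ List.replicate (per x (n + 1) - per x n) true ++ [false]

theorem bd_spec {i : ℕ} (hi : 0 < i) : bd x i < i ∧ x.take (bd x i) <:+ x.take i := by
  classical
  have := Nat.findGreatest_spec (P := fun r => r < i ∧ x.take r <:+ x.take i) (n := i)
    (m := 0) (by omega) ⟨hi, by simp⟩
  unfold bd
  convert this

theorem le_bd {i r : ℕ} (hr : r < i) (h : x.take r <:+ x.take i) : r ≤ bd x i := by
  classical
  unfold bd
  convert Nat.le_findGreatest (P := fun r => r < i ∧ x.take r <:+ x.take i) (n := i)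
    (by omega) ⟨hr, h⟩

theorem bd_zero : bd x 0 = 0 := by
  classical
  unfold bd
  simp

theorem per_zero : per x 0 = 0 := by simp [per]

theorem per_le (i : ℕ) : per x i ≤ i := Nat.sub_le _ _

theorem per_pos {i : ℕ} (hi : 0 < i) : 0 < per x i := by
  have := (bd_spec x hi).1
  unfold per; omega

theorem per_add_bd (i : ℕ) : per x i + bd x i = i := by
  unfold per
  rcases Nat.eq_zero_or_pos i with h | h
  · subst h; rw [bd_zero]
  · have := (bd_spec x h).1; omega

theorem take_succ_eq {i : ℕ} (h : i < x.length) : x.take (i + 1) = x.take i ++ [x[i]] := by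
  rw [List.take_succ_eq_append_getElem h]

theorem append_singleton_suffix {l₁ l₂ : List Bool} {a b : Bool} :
    l₁ ++ [a] <:+ l₂ ++ [b] ↔ a = b ∧ l₁ <:+ l₂ := by
  constructor
  · rintro ⟨t, ht⟩
    rw [← List.append_assoc] at ht
    have := List.append_inj' ht rfl
    refine ⟨by simpa using this.2, ⟨t, this.1⟩⟩
  · rintro ⟨h, t, ht⟩
    exact ⟨t, by rw [← ht, h, List.append_assoc]⟩

/-- stepping a candidate -/
theorem suf_succ {w : List Bool} {b : Bool} {r : ℕ} (hr : r < x.length) :
    x.take (r + 1) <:+ w ++ [b] ↔ x.take r <:+ w ∧ x[r]? = some b := by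
  rw [take_succ_eq x hr, append_singleton_suffix, List.getElem?_eq_getElem hr]
  constructor
  · rintro ⟨h1, h2⟩; exact ⟨h2, by rw [h1]⟩
  · rintro ⟨h1, h2⟩; exact ⟨by simpa using h2, h1⟩

theorem bd_succ_le {i : ℕ} (hi : i < x.length) : bd x (i + 1) ≤ bd x i + 1 := by
  rcases Nat.eq_zero_or_pos (bd x (i + 1)) with h | h
  · omega
  · obtain ⟨r, hr⟩ : ∃ r, bd x (i + 1) = r + 1 := ⟨bd x (i + 1) - 1, by omega⟩
    have hs := bd_spec x (Nat.succ_pos i)
    rw [Nat.succ_eq_add_one, hr] at hs
    have hrl : r < x.length := by omega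
    rw [take_succ_eq x hi, suf_succ x hrl] at hs
    have := le_bd x (by omega) hs.2.1
    omega

theorem per_mono {i : ℕ} (hi : i < x.length) : per x i ≤ per x (i + 1) := by
  have h1 := bd_succ_le x hi
  have h2 := per_add_bd x i
  have h3 := per_add_bd x (i + 1)
  omega

theorem per_mono' {i j : ℕ} (hij : i ≤ j) (hj : j ≤ x.length) : per x i ≤ per x j := by
  induction j, hij using Nat.le_induction with
  | base => exact le_refl _
  | succ j hij ih => exact le_trans (ih (by omega)) (per_mono x (by omega))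

/-- borders of a candidate -/
theorem suf_of_suf {w : List Bool} {i r : ℕ} (hi : x.take i <:+ w) (hri : r ≤ i) :
    x.take r <:+ w ↔ x.take r <:+ x.take i := by
  constructor
  · intro h
    exact List.suffix_of_suffix_length_le h hi (by simp; omega)
  · intro h; exact h.trans hi

/-- lengths and contents of the log -/
theorem slog_count {n : ℕ} (hn : n ≤ x.length) :
    (slog x n).count false = n ∧ (slog x n).count true = per x n ∧
      (slog x n).length = n + per x n := by
  induction n with
  | zero => simp [slog, per_zero]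
  | succ n ih =>
    obtain ⟨h1, h2, h3⟩ := ih (by omega)
    have := per_mono x (i := n) (by omega)
    simp only [slog, List.count_append, List.length_append, List.length_replicate]
    rw [h1, h2, h3]
    simp [List.count_replicate]
    omega

theorem slog_succ (n : ℕ) : slog x (n + 1) =
    slog x n ++ (List.replicate (per x (n + 1) - per x n) true ++ [false]) := by
  rw [slog, List.append_assoc]

theorem slog_one (hx : x ≠ []) : slog x 1 = [true, false] := by
  have h1 : per x 1 = 1 := by
    have h := bd_spec x Nat.one_pos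
    have := per_add_bd x 1
    omega
  simp [slog, h1, per_zero]

theorem slog_isPrefix {i j : ℕ} (hij : i ≤ j) : slog x i <+: slog x j := by
  induction j, hij using Nat.le_induction with
  | base => exact List.prefix_refl _
  | succ j hij ih =>
    rw [slog_succ]
    exact ih.trans (List.prefix_append _ _)

/-- The search invariant: `i` is the current candidate, all larger candidates are refuted by the
next symbol of the remaining text `t`. -/
def Core (w t : List Bool) (i : ℕ) : Prop :=
  i < x.length ∧ x.take i <:+ w ∧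
    ∀ r, i < r → r < x.length → x.take r <:+ w → ∃ b t', t = b :: t' ∧ x[r]? ≠ some b

variable {x}

theorem core_app {w t : List Bool} {i : ℕ} (h : Core x w t i) (s : List Bool) :
    Core x w (t ++ s) i := by
  refine ⟨h.1, h.2.1, fun r h1 h2 h3 => ?_⟩
  obtain ⟨b, t', ht, hb⟩ := h.2.2 r h1 h2 h3
  exact ⟨b, t' ++ s, by rw [ht]; rfl, hb⟩

theorem core_fwd {w t : List Bool} {i : ℕ} {b : Bool} (h : Core x w (b :: t) i)
    (hb : x[i]? = some b) (hi : i + 1 < x.length) : Core x (w ++ [b]) t (i + 1) := by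
  refine ⟨hi, (suf_succ x h.1).2 ⟨h.2.1, hb⟩, fun r h1 h2 h3 => ?_⟩
  exfalso
  obtain ⟨r', hr'⟩ : ∃ r', r = r' + 1 := ⟨r - 1, by omega⟩
  subst hr'
  obtain ⟨h4, h5⟩ := (suf_succ x (by omega)).1 h3
  obtain ⟨b', t', ht, hb'⟩ := h.2.2 r' (by omega) (by omega) h4
  rw [List.cons.injEq] at ht
  rw [ht.1] at h5
  exact hb' h5

theorem core_zero {w t : List Bool} {b : Bool} (h : Core x w (b :: t) 0)
    (hb : x[0]? ≠ some b) : Core x (w ++ [b]) t 0 := by
  refine ⟨h.1, by simp, fun r h1 h2 h3 => ?_⟩
  exfalso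
  obtain ⟨r', hr'⟩ : ∃ r', r = r' + 1 := ⟨r - 1, by omega⟩
  subst hr'
  obtain ⟨h4, h5⟩ := (suf_succ x (by omega)).1 h3
  rcases Nat.eq_zero_or_pos r' with h6 | h6
  · subst h6; exact hb h5
  · obtain ⟨b', t', ht, hb'⟩ := h.2.2 r' (by omega) (by omega) h4
    rw [List.cons.injEq] at ht
    rw [ht.1] at h5
    exact hb' h5

theorem core_shift {w t : List Bool} {i : ℕ} {b : Bool} (h : Core x w (b :: t) i)
    (hb : x[i]? ≠ some b) (hi : 0 < i) : Core x w (b :: t) (bd x i) := by
  have hs := bd_spec x hi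
  refine ⟨by have := h.1; omega, hs.2.trans h.2.1, fun r h1 h2 h3 => ?_⟩
  rcases lt_trichotomy r i with hr | hr | hr
  · have := le_bd x hr ((suf_of_suf x h.2.1 hr.le).1 h3)
    omega
  · subst hr; exact ⟨b, t, rfl, hb⟩
  · exact h.2.2 r hr h2 h3

/-- no full occurrence so far -/
theorem nf_succ {w t : List Bool} {b : Bool} {i : ℕ} (h : Core x w (b :: t) i)
    (hnf : ¬ x <:+: w) (hb : x[i]? = some b → i + 1 < x.length) : ¬ x <:+: w ++ [b] := by
  intro hx
  have hx0 : 0 < x.length := by have := h.1; omega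
  have h1 : x <:+: w ∨ x <:+ w ++ [b] := by
    obtain ⟨p, s, hps⟩ := hx
    rcases List.eq_nil_or_concat s with hs | ⟨s', c, hs⟩
    · right; subst hs; exact ⟨p, by simpa using hps⟩
    · left
      rw [hs, List.concat_eq_append, ← List.append_assoc] at hps
      have := List.append_inj' hps rfl
      exact ⟨p, s', this.1⟩
  rcases h1 with h1 | h1
  · exact hnf h1
  · obtain ⟨r, hr⟩ : ∃ r, x.length = r + 1 := ⟨x.length - 1, by omega⟩
    have h2 : x.take (r + 1) <:+ w ++ [b] := by rw [← hr, List.take_length]; exact h1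
    obtain ⟨h3, h4⟩ := (suf_succ x (by omega)).1 h2
    rcases Nat.lt_or_ge i r with hir | hir
    · obtain ⟨b', t', ht, hb'⟩ := h.2.2 r hir (by omega) h3
      rw [List.cons.injEq] at ht
      rw [ht.1] at h4
      exact hb' h4
    · have : i = r := by have := h.1; omega
      subst this
      have := hb h4
      omega

/-- A match: the whole pattern has been found. -/
theorem found_of_core {w t : List Bool} {b : Bool} {i : ℕ} (h : Core x w (b :: t) i)
    (hb : x[i]? = some b) (hi : i + 1 = x.length) : x <:+: w ++ [b] := by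
  have h2 : x.take (i + 1) <:+ w ++ [b] := (suf_succ x h.1).2 ⟨h.2.1, hb⟩
  rw [hi, List.take_length] at h2
  exact h2.isInfix

/-- While the machine is late no occurrence of the pattern is completed. -/
theorem nf_of_slack (hx : x ≠ []) {w t : List Bool} {i : ℕ} (hnf : ¬ x <:+: w)
    (h2 : ∀ r, i < r → r < x.length → x.take r <:+ w → ∃ b t', t = b :: t' ∧ x[r]? ≠ some b)
    (hlt : i + t.length < x.length) : ¬ x <:+: w ++ t := by
  rintro ⟨p, s, hps⟩
  -- the occurrence ends inside `t`
  rcases Nat.lt_or_ge w.length (p ++ x).length with hlen | hlen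
  · -- `x = x1 ++ x2`, `p ++ x1 = w`, `x2 ++ s = t`
    have hp : p.length ≤ w.length := by
      have h3 := congrArg List.length hps
      simp only [List.length_append] at h3 hlen
      omega
    obtain ⟨x1, hx1⟩ : ∃ x1, w = p ++ x1 := by
      refine ⟨w.drop p.length, ?_⟩
      have h3 : p ++ (x ++ s) = w ++ t := by rw [← hps, List.append_assoc]
      have h4 : p = w.take p.length := by
        have := congrArg (List.take p.length) h3
        rw [List.take_left, List.take_append_of_le_length hp] at this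
        exact this
      conv_lhs => rw [← List.take_append_drop p.length w, ← h4]
    subst hx1
    have h3 : x ++ s = x1 ++ t := by
      have : p ++ (x ++ s) = p ++ (x1 ++ t) := by
        rw [← List.append_assoc, hps, List.append_assoc]
      exact List.append_cancel_left this
    have h4 : x1.length < x.length := by
      simp only [List.length_append] at hlen; omega
    have h5 : x1 = x.take x1.length := by
      have := congrArg (List.take x1.length) h3
      rw [List.take_left, List.take_append_of_le_length h4.le] at this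
      exact this.symm
    have h6 : t = x.drop x1.length ++ s := by
      have := congrArg (List.drop x1.length) h3
      rw [List.drop_left, List.drop_append_of_le_length h4.le] at this
      exact this.symm
    have h7 : i < x1.length := by
      have : t.length = (x.length - x1.length) + s.length := by
        rw [h6, List.length_append, List.length_drop]
      omega
    obtain ⟨b, t', ht, hb⟩ := h2 x1.length h7 h4 (by rw [← h5]; exact List.suffix_append _ _)
    apply hb
    rw [h6, ← List.cons_getElem_drop_succ (h := h4)] at ht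
    rw [List.getElem?_eq_getElem h4]
    simp only [List.cons_append, List.cons.injEq] at ht
    rw [ht.1]
  · apply hnf
    have h3 : p ++ x <+: w := by
      have h4 : p ++ x <+: w ++ t := ⟨s, hps⟩
      exact List.prefix_of_prefix_length_le h4 (List.prefix_append _ _) hlen
    obtain ⟨s', hs'⟩ := h3
    exact ⟨p, s', hs'⟩

/-- self matching: suffixes of the text without the first symbol are borders -/
theorem suf_self {w t : List Bool} (hx : w ++ t = x.tail) (hx0 : x ≠ []) {r : ℕ}
    (hr : r ≤ w.length) : x.take r <:+ w ↔ x.take r <:+ x.take (w.length + 1) := by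
  obtain ⟨a, l, rfl⟩ := List.exists_cons_of_ne_nil hx0
  simp only [List.tail_cons] at hx
  subst hx
  have h1 : (a :: (w ++ t)).take (w.length + 1) = a :: w := by simp
  rw [h1]
  constructor
  · intro h; exact h.trans (List.suffix_cons _ _)
  · intro h
    refine List.suffix_of_suffix_length_le h (List.suffix_cons _ _) ?_
    rw [List.length_take]
    omega

theorem self_len {w t : List Bool} (hx : w ++ t = x.tail) (hx0 : x ≠ []) :
    w.length + t.length + 1 = x.length := by
  have := congrArg List.length hx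
  rw [List.length_append, List.length_tail] at this
  have := List.length_pos_iff.2 hx0
  omega

theorem self_get {w t : List Bool} {b : Bool} (hx : w ++ (b :: t) = x.tail) (hx0 : x ≠ []) :
    x[w.length + 1]? = some b := by
  obtain ⟨a, l, rfl⟩ := List.exists_cons_of_ne_nil hx0
  simp only [List.tail_cons] at hx
  subst hx
  simp

/-- candidates of the self matching are borders -/
theorem self_le_bd {w t : List Bool} {i : ℕ} (hx : w ++ t = x.tail) (hx0 : x ≠ [])
    (h : Core x w t i) (hi : i ≤ w.length) : i ≤ bd x (w.length + 1) :=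
  le_bd x (by omega) ((suf_self hx hx0 hi).1 h.2.1)

theorem suf_len {w : List Bool} {i : ℕ} (h : x.take i <:+ w) (hi : i < x.length) :
    i ≤ w.length := by
  have := h.length_le
  rw [List.length_take] at this
  omega

theorem self_bd_fwd {w t : List Bool} {b : Bool} {i : ℕ} (hx : w ++ (b :: t) = x.tail)
    (hx0 : x ≠ []) (h : Core x w (b :: t) i) (hb : x[i]? = some b) :
    bd x (w.length + 2) = i + 1 := by
  have hlen := self_len hx hx0
  simp only [List.length_cons] at hlen
  have hi : i ≤ w.length := suf_len h.2.1 h.1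
  have hx' : (w ++ [b]) ++ t = x.tail := by rw [← hx]; simp
  have hl' : (w ++ [b]).length = w.length + 1 := by simp
  apply le_antisymm
  · have hs := bd_spec x (i := w.length + 2) (by omega)
    rcases Nat.eq_zero_or_pos (bd x (w.length + 2)) with h0 | h0
    · omega
    · obtain ⟨r, hr⟩ : ∃ r, bd x (w.length + 2) = r + 1 := ⟨bd x (w.length + 2) - 1, by omega⟩
      rw [hr] at hs ⊢
      have h1 : x.take (r + 1) <:+ w ++ [b] := by
        rw [suf_self hx' hx0 (by omega), hl']
        exact hs.2
      obtain ⟨h2, h3⟩ := (suf_succ x (by omega)).1 h1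
      rcases Nat.lt_or_ge i r with hir | hir
      · obtain ⟨b', t', ht, hb'⟩ := h.2.2 r hir (by omega) h2
        rw [List.cons.injEq] at ht
        rw [ht.1] at h3
        exact absurd h3 hb'
      · omega
  · apply le_bd x (by omega)
    have h1 : x.take (i + 1) <:+ w ++ [b] := (suf_succ x h.1).2 ⟨h.2.1, hb⟩
    rw [suf_self hx' hx0 (by omega), hl'] at h1
    exact h1

theorem self_bd_zero {w t : List Bool} {b : Bool} (hx : w ++ (b :: t) = x.tail)
    (hx0 : x ≠ []) (h : Core x w (b :: t) 0) (hb : x[0]? ≠ some b) :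
    bd x (w.length + 2) = 0 := by
  have hlen := self_len hx hx0
  simp only [List.length_cons] at hlen
  have hx' : (w ++ [b]) ++ t = x.tail := by rw [← hx]; simp
  have hl' : (w ++ [b]).length = w.length + 1 := by simp
  have hs := bd_spec x (i := w.length + 2) (by omega)
  rcases Nat.eq_zero_or_pos (bd x (w.length + 2)) with h0 | h0
  · exact h0
  · exfalso
    obtain ⟨r, hr⟩ : ∃ r, bd x (w.length + 2) = r + 1 := ⟨bd x (w.length + 2) - 1, by omega⟩
    rw [hr] at hs
    have h1 : x.take (r + 1) <:+ w ++ [b] := by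
      rw [suf_self hx' hx0 (by omega), hl']
      exact hs.2
    obtain ⟨h2, h3⟩ := (suf_succ x (by omega)).1 h1
    rcases Nat.eq_zero_or_pos r with h6 | h6
    · subst h6; exact hb h3
    · obtain ⟨b', t', ht, hb'⟩ := h.2.2 r (by omega) (by omega) h2
      rw [List.cons.injEq] at ht
      rw [ht.1] at h3
      exact hb' h3

end Pool.Agent.Lib.RT45
end

section

/-!
# The invariant of the stack program
-/

namespace Pool.Agent.Lib.RT45

variable {x u : List Bool}

/-- position on the pattern tape -/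
def XP (x : List Bool) (i : ℕ) (XL XR : List Bool) : Prop :=
  i ≤ x.length ∧ XL = (x.take i).reverse ∧ XR = x.drop i

theorem xp_fwd {i : ℕ} {a : Bool} {XL XR : List Bool} (h : XP x i XL (a :: XR)) :
    x[i]? = some a ∧ XP x (i + 1) (a :: XL) XR := by
  obtain ⟨h1, h2, h3⟩ := h
  have hi : i < x.length := by
    have := congrArg List.length h3
    rw [List.length_cons, List.length_drop] at this
    omega
  rw [← List.cons_getElem_drop_succ (h := hi)] at h3
  rw [List.cons.injEq] at h3
  refine ⟨?_, by omega, ?_, h3.2⟩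
  · rw [List.getElem?_eq_getElem hi, h3.1]
  · rw [take_succ_eq x hi, List.reverse_append, h2, h3.1]; rfl

theorem xp_bwd {i : ℕ} {XL XR : List Bool} (h : XP x (i + 1) XL XR) :
    ∃ a XL', XL = a :: XL' ∧ XP x i XL' (a :: XR) := by
  obtain ⟨h1, h2, h3⟩ := h
  have hi : i < x.length := by omega
  refine ⟨x[i], (x.take i).reverse, ?_, by omega, rfl, ?_⟩
  · rw [h2, take_succ_eq x hi, List.reverse_append]; rfl
  · rw [h3, List.cons_getElem_drop_succ]

theorem xp_nil {i : ℕ} {XR : List Bool} (h : XP x i [] XR) : i = 0 := by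
  obtain ⟨h1, h2, h3⟩ := h
  have := congrArg List.length h2
  rw [List.length_reverse, List.length_take] at this
  simp only [List.length_nil] at this
  omega

theorem xp_pos {i : ℕ} {a : Bool} {XL XR : List Bool} (h : XP x i (a :: XL) XR) : 0 < i := by
  obtain ⟨h1, h2, h3⟩ := h
  have := congrArg List.length h2
  rw [List.length_reverse, List.length_take] at this
  simp only [List.length_cons] at this
  omega

theorem xp_end {i : ℕ} {XL : List Bool} (h : XP x i XL []) : i = x.length := by
  obtain ⟨h1, h2, h3⟩ := h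
  have := congrArg List.length h3
  rw [List.length_drop] at this
  simp only [List.length_nil] at this
  omega

theorem xp_len {i : ℕ} {XL XR : List Bool} (h : XP x i XL XR) : XL.length = i := by
  obtain ⟨h1, h2, h3⟩ := h
  rw [h2, List.length_reverse, List.length_take]
  omega

theorem xp_all {i : ℕ} {XL XR : List Bool} (h : XP x i XL XR) : XL.reverse ++ XR = x := by
  obtain ⟨h1, h2, h3⟩ := h
  rw [h2, h3, List.reverse_reverse, List.take_append_drop]

/-- contents of the log tape -/
def TT (lg SL SR P : List Bool) : Prop := SL.reverse ++ SR ++ P.reverse = lg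

/-- the same during reversal -/
def TR (lg SL SR P : List Bool) : Prop := SL.reverse ++ P.reverse ++ SR = lg

theorem tt_right {lg SL SR P : List Bool} {g : Bool} (h : TT lg SL (g :: SR) P) :
    TT lg (g :: SL) SR P := by
  unfold TT at *
  rw [← h]; simp

theorem tt_left {lg SL SR P : List Bool} {g : Bool} (h : TT lg (g :: SL) SR P) :
    TT lg SL (g :: SR) P := by
  unfold TT at *
  rw [← h]; simp

theorem tt_push {lg SL SR P : List Bool} (g : Bool) (h : TT lg SL SR P) :
    TT (lg ++ [g]) SL SR (g :: P) := by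
  unfold TT at *
  rw [← h]; simp

theorem tr_step {lg SL SR P : List Bool} {g : Bool} (h : TR lg SL SR (g :: P)) :
    TR lg SL (g :: SR) P := by
  unfold TR at *
  rw [← h]; simp

theorem tr_of_tt {lg SL P : List Bool} (h : TT lg SL [] P) : TR lg SL [] P := by
  unfold TR TT at *
  rw [← h]; simp

theorem tt_of_tr {lg SL SR : List Bool} (h : TR lg SL SR []) : TT lg SL SR [] := by
  unfold TR TT at *
  rw [← h]; simp

theorem tt_pre {lg SL SR P : List Bool} (h : TT lg SL SR P) : SL.reverse <+: lg := by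
  unfold TT at h
  rw [← h, List.append_assoc]; exact List.prefix_append _ _

theorem tr_pre {lg SL SR P : List Bool} (h : TR lg SL SR P) : SL.reverse <+: lg := by
  unfold TR at h
  rw [← h, List.append_assoc]; exact List.prefix_append _ _

/-- position of the head on the log tape -/
def ST (x : List Bool) (i : ℕ) (SL N E : List Bool) : Prop :=
  i ≤ SL.length ∧ SL.length ≤ i + per x i ∧ E.length + SL.count false = i ∧
    N.length = SL.count true

theorem st_fwd {i : ℕ} {SL N E : List Bool} (g : Bool) (h : ST x i SL N E)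
    (hi : i < x.length) : ST x (i + 1) (g :: SL) (if g = true then true :: N else N)
      (if g = true then true :: E else E) := by
  obtain ⟨h1, h2, h3, h4⟩ := h
  have := per_mono x hi
  cases g
  · refine ⟨by simp; omega, by simp; omega, ?_, ?_⟩
    · simp; omega
    · simp; omega
  · refine ⟨by simp; omega, by simp; omega, ?_, ?_⟩
    · simp; omega
    · simp; omega

theorem slog_pre_eq {i : ℕ} {l : List Bool} (hi : i ≤ x.length) (h : l <+: slog x i)
    (hc : l.count false = i) : l = slog x i := by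
  cases i with
  | zero => simpa [slog] using h
  | succ k =>
    have h0 : slog x (k + 1) = (slog x k ++ List.replicate (per x (k + 1) - per x k) true) ++
        [false] := by rw [slog]
    rw [h0] at h
    rcases List.prefix_concat_iff.1 h with h | h
    · rw [h0]; exact h
    · exfalso
      have h1 := h.sublist.count_le false
      rw [List.count_append, (slog_count x (by omega)).1, hc] at h1
      simp [List.count_replicate] at h1

theorem st_full {i : ℕ} {lg SL N : List Bool} (hi : i ≤ x.length) (h1 : SL.reverse <+: lg)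
    (h2 : slog x i <+: lg) (h : ST x i SL N []) : SL.reverse = slog x i := by
  obtain ⟨h3, h4, h5, h6⟩ := h
  have hl := (slog_count x hi).2.2
  have h7 : SL.reverse <+: slog x i :=
    List.prefix_of_prefix_length_le h1 h2 (by rw [List.length_reverse]; omega)
  exact slog_pre_eq hi h7 (by rw [List.count_reverse]; simpa using h5)

theorem st_short {i : ℕ} {lg SL N E : List Bool} (hi : i ≤ x.length) (h1 : SL.reverse <+: lg)
    (h2 : slog x i <+: lg) (h : ST x i SL N E) (hE : E ≠ []) : SL.length < i + per x i := by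
  obtain ⟨h3, h4, h5, h6⟩ := h
  have hl := (slog_count x hi).2.2
  by_contra h7
  have h8 : SL.reverse = slog x i := by
    have h9 : SL.reverse <+: slog x i :=
      List.prefix_of_prefix_length_le h1 h2 (by rw [List.length_reverse]; omega)
    exact h9.eq_of_length (by rw [List.length_reverse]; omega)
  have h10 := congrArg (List.count false) h8
  rw [List.count_reverse, (slog_count x hi).1] at h10
  have := List.length_pos_iff.2 hE
  omega

theorem st_one {i : ℕ} {SL N E : List Bool} {e g : Bool} (h : ST x i SL N (e :: E))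
    (hs : SL.length < i + per x i) : ST x i (g :: SL) (if g = true then true :: N else N)
      (if g = true then e :: E else E) := by
  obtain ⟨h1, h2, h3, h4⟩ := h
  simp only [List.length_cons] at h3
  cases g
  · refine ⟨by simp; omega, by simp; omega, ?_, ?_⟩
    · simp; omega
    · simp; omega
  · refine ⟨by simp; omega, by simp; omega, ?_, ?_⟩
    · simp; omega
    · simp; omega

/-- a complete position -/
theorem st_of_eq {i : ℕ} {SL N : List Bool} (hi : i ≤ x.length) (h : SL.reverse = slog x i)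
    (hN : N.length = per x i) : ST x i SL N [] := by
  have hl := slog_count x hi
  have h1 : SL.length = i + per x i := by rw [← hl.2.2, ← h, List.length_reverse]
  have h2 : SL.count false = i := by
    have := hl.1
    rw [← h, List.count_reverse] at this
    exact this
  have h3 : SL.count true = per x i := by
    have := hl.2.1
    rw [← h, List.count_reverse] at this
    exact this
  refine ⟨by omega, by omega, by simpa using h2, by omega⟩

/-- The environment: the two texts and the log. -/
def Env (x u : List Bool) (ph : Bool) (w t lg : List Bool) (i : ℕ) (Y P nw old O : List Bool) :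
    Prop :=
  match ph with
  | false => w ++ t = x.tail ∧ t = Y ∧ i + per x (w.length + 1) ≤ w.length + 1 ∧
      lg = slog x (w.length + 1) ++
        List.replicate (w.length + 1 - i - per x (w.length + 1)) true ∧
      O = [] ∧ old = [] ∧ nw.reverse = u
  | true => w ++ t = u ∧ t = O ++ nw.reverse ∧ ¬ x <:+: w ∧ lg = slog x x.length ∧
      P = [] ∧ old = []

/-- potential of the environment -/
def base (x : List Bool) (ph : Bool) (Y nw O : List Bool) : ℕ :=
  match ph with
  | false => 16 * Y.length + 11 * x.length + 47 * nw.length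
  | true => 44 * O.length + 47 * nw.length

/-- weight of the pattern position -/
def wI : Bool → ℕ
  | false => 12
  | true => 40

theorem log_pre {ph : Bool} {w t lg : List Bool} {i k : ℕ} {Y P nw old O : List Bool}
    (he : Env x u ph w t lg k Y P nw old O) (hc : Core x w t i) :
    slog x (i + 1) <+: lg := by
  have h1 : i ≤ w.length := suf_len hc.2.1 hc.1
  cases ph with
  | false =>
    obtain ⟨_, _, _, h, _⟩ := he
    rw [h]
    exact (slog_isPrefix x (by omega)).trans (List.prefix_append _ _)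
  | true =>
    obtain ⟨_, _, _, h, _⟩ := he
    rw [h]
    exact slog_isPrefix x (by have := hc.1; omega)

theorem sr_ne {ph : Bool} {w t lg : List Bool} {i k : ℕ} {Y P nw old O SL N E : List Bool}
    (he : Env x u ph w t lg k Y P nw old O) (hc : Core x w t i) (hs : ST x i SL N E)
    (ht : TT lg SL [] []) : False := by
  have h1 := (log_pre he hc).length_le
  rw [(slog_count x (n := i + 1) hc.1).2.2] at h1
  have h2 : SL.length = lg.length := by
    unfold TT at ht
    rw [← ht]; simp
  have h3 := per_mono x hc.1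
  have h4 := hs.2.1
  omega

/-- The invariant. -/
def Inv (x u : List Bool) (φ : ℕ) (s : AC) : Prop :=
  match s.pc with
  | .read => False
  | .dead => False
  | .found => x <:+: u
  | .init => s.ph = false ∧ s.XL = [] ∧ s.XR = x ∧ s.Y = x ∧ s.SL = [] ∧ s.SR = [] ∧ s.P = [] ∧
      s.N = [] ∧ s.M = [] ∧ s.E = [] ∧ s.O = [] ∧ s.old = [] ∧ s.nw.reverse = u ∧ 1 ≤ φ ∧
      (x ≠ [] → 27 * x.length + 47 * s.nw.length ≤ φ + 8)
  | .init2 => x ≠ [] ∧ s.ph = false ∧ s.XL = [] ∧ s.XR = x ∧ s.Y = x.tail ∧ s.SL = [] ∧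
      s.SR = [] ∧ s.P = [true] ∧ s.N = [] ∧ s.M = [] ∧ s.E = [] ∧ s.O = [] ∧ s.old = [] ∧
      s.nw.reverse = u ∧ 27 * x.length + 47 * s.nw.length ≤ φ + 9
  | .main => (x ≠ [] ∧ ∃ w t lg i, Env x u s.ph w t lg i s.Y s.P s.nw s.old s.O ∧
      XP x i s.XL s.XR ∧ Core x w t i ∧ TT lg s.SL s.SR s.P ∧ ST x i s.SL s.N s.E ∧
      s.M = [] ∧ wI s.ph * i + 3 * s.P.length + base x s.ph s.Y s.nw s.O ≤ φ) ∨
      (s.XR = [] ∧ s.P = [] ∧ x <:+: u ∧ 40 * x.length + 1 ≤ φ)
  | .emit => x ≠ [] ∧ ∃ w b t lg, Env x u s.ph w (b :: t) lg 0 s.Y s.P s.nw s.old s.O ∧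
      XP x 0 s.XL s.XR ∧ Core x w (b :: t) 0 ∧ x[0]? ≠ some b ∧
      TT (lg ++ bif s.ph then [] else [true]) s.SL s.SR s.P ∧ ST x 0 s.SL s.N s.E ∧
      s.M = [] ∧ (s.ph = true → s.O ≠ []) ∧
      3 * s.P.length + 4 + base x s.ph s.Y s.nw s.O ≤ φ + bif s.ph then 44 else 16
  | .cat => x ≠ [] ∧ ∃ w b t lg i, Env x u s.ph w (b :: t) lg i s.Y s.P s.nw s.old s.O ∧
      XP x i s.XL s.XR ∧ Core x w (b :: t) i ∧ x[i]? ≠ some b ∧ 0 < i ∧
      TT lg s.SL s.SR s.P ∧ ST x i s.SL s.N s.E ∧ s.M = [] ∧
      wI s.ph * bd x i + 3 * s.P.length + (i + per x i - s.SL.length) + 6 * per x i + 4 +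
        base x s.ph s.Y s.nw s.O ≤ φ
  | .rev false => x ≠ [] ∧ ∃ w t lg i, Env x u s.ph w t lg i s.Y s.P s.nw s.old s.O ∧
      XP x i s.XL s.XR ∧ Core x w t i ∧ TR lg s.SL s.SR s.P ∧ ST x i s.SL s.N s.E ∧
      s.M = [] ∧ wI s.ph * i + s.P.length + 1 + base x s.ph s.Y s.nw s.O ≤ φ
  | .rev true => x ≠ [] ∧ ∃ w b t lg i, Env x u s.ph w (b :: t) lg i s.Y s.P s.nw s.old s.O ∧
      XP x i s.XL s.XR ∧ Core x w (b :: t) i ∧ x[i]? ≠ some b ∧ 0 < i ∧
      TR lg s.SL s.SR s.P ∧ ST x i s.SL s.N s.E ∧ s.M = [] ∧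
      wI s.ph * bd x i + s.P.length + 1 + (i + per x i - s.SL.length) + 6 * per x i + 4 +
        base x s.ph s.Y s.nw s.O ≤ φ
  | .cp => x ≠ [] ∧ ∃ w b t lg i, Env x u s.ph w (b :: t) lg i s.Y s.P s.nw s.old s.O ∧
      XP x i s.XL s.XR ∧ Core x w (b :: t) i ∧ x[i]? ≠ some b ∧ 0 < i ∧
      TT lg s.SL s.SR s.P ∧ s.SL.reverse = slog x i ∧ s.N.length + s.M.length = per x i ∧
      s.E.length = s.M.length ∧
      wI s.ph * bd x i + 3 * s.P.length + 5 * per x i + s.N.length + 3 +
        base x s.ph s.Y s.nw s.O ≤ φ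
  | .sh => x ≠ [] ∧ ∃ w b t lg i i' r, Env x u s.ph w (b :: t) lg i s.Y s.P s.nw s.old s.O ∧
      XP x i s.XL s.XR ∧ Core x w (b :: t) i' ∧ i = i' + s.E.length ∧
      TT lg s.SL s.SR s.P ∧ s.SL.reverse = slog x i ++ List.replicate r true ∧
      s.M.length = per x i + r ∧ s.N = [] ∧
      wI s.ph * i' + 3 * s.P.length + 4 * s.E.length + s.M.length + 2 +
        base x s.ph s.Y s.nw s.O ≤ φ
  | .cb => x ≠ [] ∧ ∃ w b t lg i, Env x u s.ph w (b :: t) lg i s.Y s.P s.nw s.old s.O ∧
      XP x i s.XL s.XR ∧ Core x w (b :: t) i ∧ s.E = [] ∧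
      TT lg s.SL s.SR s.P ∧ s.SL.reverse = slog x i ∧ s.N.length + s.M.length = per x i ∧
      wI s.ph * i + 3 * s.P.length + s.M.length + 1 + base x s.ph s.Y s.nw s.O ≤ φ
  | .qrev => x ≠ [] ∧ s.ph = true ∧ ∃ w t i, w ++ t = u ∧
      t = s.old.reverse ++ s.O ++ s.nw.reverse ∧ ¬ x <:+: w ∧ s.P = [] ∧
      XP x i s.XL s.XR ∧ Core x w t i ∧ TT (slog x x.length) s.SL s.SR s.P ∧
      ST x i s.SL s.N s.E ∧ s.M = [] ∧
      40 * i + 44 * (s.O.length + s.old.length) + s.old.length + 1 + 47 * s.nw.length ≤ φ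
  | .rw1 => x ≠ [] ∧ s.ph = false ∧ s.Y = [] ∧ s.XL.reverse ++ s.XR = x ∧
      TT (slog x x.length) s.SL s.SR s.P ∧ s.O = [] ∧ s.old = [] ∧ s.nw.reverse = u ∧
      s.M = [] ∧ s.XL.length + s.N.length + s.E.length + 2 * s.SR.length + s.SL.length +
        s.P.length + 3 + 47 * s.nw.length ≤ φ
  | .rw2 => x ≠ [] ∧ s.ph = false ∧ s.XL = [] ∧ s.XR = x ∧ s.N = [] ∧ s.E = [] ∧ s.M = [] ∧
      TR (slog x x.length) s.SL s.SR s.P ∧ s.O = [] ∧ s.old = [] ∧ s.nw.reverse = u ∧
      s.P.length + s.SL.length + 2 + 47 * s.nw.length ≤ φ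
  | .rw3 => x ≠ [] ∧ s.ph = false ∧ s.XL = [] ∧ s.XR = x ∧ s.N = [] ∧ s.E = [] ∧ s.M = [] ∧
      s.P = [] ∧ TT (slog x x.length) s.SL s.SR s.P ∧ s.O = [] ∧ s.old = [] ∧
      s.nw.reverse = u ∧ s.SL.length + 1 + 47 * s.nw.length ≤ φ

theorem inv_mono {φ φ' : ℕ} {s : AC} (h : Inv x u φ s) (hφ : φ ≤ φ') : Inv x u φ' s := by
  obtain ⟨pc, ph, tg, XL, XR, Y, SL, SR, P, N, M, E, nw, old, O⟩ := s
  cases pc with
  | read => exact h
  | dead => exact h
  | found => exact h
  | init =>
    obtain ⟨h1, h2, h3, h4, h5, h6, h7, h8, h9, h10, h11, h12, h13, h14, h15⟩ := h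
    exact ⟨h1, h2, h3, h4, h5, h6, h7, h8, h9, h10, h11, h12, h13, by omega,
      fun hx => by have := h15 hx; omega⟩
  | init2 =>
    obtain ⟨h1, h2, h3, h4, h5, h6, h7, h8, h9, h10, h11, h12, h13, h14, h15⟩ := h
    exact ⟨h1, h2, h3, h4, h5, h6, h7, h8, h9, h10, h11, h12, h13, h14, by omega⟩
  | main =>
    rcases h with ⟨hx, w, t, lg, i, h1, h2, h3, h4, h5, h6, h7⟩ | ⟨h1, h2, h3, h4⟩
    · exact Or.inl ⟨hx, w, t, lg, i, h1, h2, h3, h4, h5, h6, h7.trans hφ⟩
    · exact Or.inr ⟨h1, h2, h3, h4.trans hφ⟩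
  | emit =>
    obtain ⟨hx, w, b, t, lg, h1, h2, h3, h4, h5, h6, h7, h8, h9⟩ := h
    exact ⟨hx, w, b, t, lg, h1, h2, h3, h4, h5, h6, h7, h8, by dsimp only at h9 ⊢; omega⟩
  | cat =>
    obtain ⟨hx, w, b, t, lg, i, h1, h2, h3, h4, h5, h6, h7, h8, h9⟩ := h
    exact ⟨hx, w, b, t, lg, i, h1, h2, h3, h4, h5, h6, h7, h8, h9.trans hφ⟩
  | rev r =>
    cases r with
    | false =>
      obtain ⟨hx, w, t, lg, i, h1, h2, h3, h4, h5, h6, h7⟩ := h
      exact ⟨hx, w, t, lg, i, h1, h2, h3, h4, h5, h6, h7.trans hφ⟩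
    | true =>
      obtain ⟨hx, w, b, t, lg, i, h1, h2, h3, h4, h5, h6, h7, h8, h9⟩ := h
      exact ⟨hx, w, b, t, lg, i, h1, h2, h3, h4, h5, h6, h7, h8, h9.trans hφ⟩
  | cp =>
    obtain ⟨hx, w, b, t, lg, i, h1, h2, h3, h4, h5, h6, h7, h8, h9, h10⟩ := h
    exact ⟨hx, w, b, t, lg, i, h1, h2, h3, h4, h5, h6, h7, h8, h9, h10.trans hφ⟩
  | sh =>
    obtain ⟨hx, w, b, t, lg, i, i', r, h1, h2, h3, h4, h5, h6, h7, h8, h9⟩ := h
    exact ⟨hx, w, b, t, lg, i, i', r, h1, h2, h3, h4, h5, h6, h7, h8, h9.trans hφ⟩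
  | cb =>
    obtain ⟨hx, w, b, t, lg, i, h1, h2, h3, h4, h5, h6, h7, h8⟩ := h
    exact ⟨hx, w, b, t, lg, i, h1, h2, h3, h4, h5, h6, h7, h8.trans hφ⟩
  | qrev =>
    obtain ⟨hx, hp, w, t, i, h1, h2, h3, h4, h5, h6, h7, h8, h9, h10⟩ := h
    exact ⟨hx, hp, w, t, i, h1, h2, h3, h4, h5, h6, h7, h8, h9, h10.trans hφ⟩
  | rw1 =>
    obtain ⟨hx, h1, h2, h3, h4, h5, h6, h7, h8, h9⟩ := h
    exact ⟨hx, h1, h2, h3, h4, h5, h6, h7, h8, h9.trans hφ⟩
  | rw2 =>
    obtain ⟨hx, h1, h2, h3, h4, h5, h6, h7, h8, h9, h10, h11⟩ := h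
    exact ⟨hx, h1, h2, h3, h4, h5, h6, h7, h8, h9, h10, h11.trans hφ⟩
  | rw3 =>
    obtain ⟨hx, h1, h2, h3, h4, h5, h6, h7, h8, h9, h10, h11, h12⟩ := h
    exact ⟨hx, h1, h2, h3, h4, h5, h6, h7, h8, h9, h10, h11, h12.trans hφ⟩

end Pool.Agent.Lib.RT45
end
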