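import Mathlib
import Pool.Agent.Lib.MP_4589a7_lc.Inv

section

/-!
# Preservation of the invariant by the micro steps
-/

namespace Pool.Agent.Lib.RT45

variable {x u : List Bool} {φ : ℕ} {ph tg : Bool} {XL XR Y SL SR P N M E nw old O : List Bool}

/-- Conclusion of the step lemmas. -/
def Good (x u : List Bool) (φ : ℕ) (s : AC) : Prop :=
  (astep s = s ∧ Inv x u (40 * x.length) s) ∨ ∃ φ', φ = φ' + 1 ∧ Inv x u φ' (astep s)

theorem good_of {s : AC} (h0 : 0 < φ) (h : Inv x u (φ - 1) (astep s)) : Good x u φ s :=
  Or.inr ⟨φ - 1, by omega, h⟩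

theorem step_init (h : Inv x u φ ⟨.init, ph, tg, XL, XR, Y, SL, SR, P, N, M, E, nw, old, O⟩) :
    Good x u φ ⟨.init, ph, tg, XL, XR, Y, SL, SR, P, N, M, E, nw, old, O⟩ := by
  obtain ⟨h1, h2, h3, h4, h5, h6, h7, h8, h9, h10, h11, h12, h13, h14, h15⟩ := h
  dsimp only at h1 h2 h3 h4 h5 h6 h7 h8 h9 h10 h11 h12 h13 h14 h15
  subst h1 h2 h3 h4 h5 h6 h7 h8 h9 h10 h11 h12
  refine good_of (by omega) ?_
  cases Y with
  | nil => exact List.nil_infix
  | cons a l =>
    have := h15 (by simp)
    refine ⟨by simp, rfl, rfl, rfl, rfl, rfl, rfl, rfl, rfl, rfl, rfl, rfl, rfl, h13, ?_⟩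
    show 27 * (a :: l).length + 47 * nw.length ≤ φ - 1 + 9
    omega

theorem per_one (x : List Bool) : per x 1 = 1 := by
  have h := bd_spec x Nat.one_pos
  have := per_add_bd x 1
  omega

theorem slog_one' (x : List Bool) : slog x 1 = [true, false] := by
  simp [slog, per_one, per_zero]

theorem core_start (hx : x ≠ []) (t : List Bool) : Core x [] t 0 := by
  have h0 := List.length_pos_iff.2 hx
  refine ⟨h0, by simp, fun r h1 h2 h3 => ?_⟩
  exfalso
  have := suf_len h3 h2
  simp at this
  omega

theorem step_init2 (h : Inv x u φ ⟨.init2, ph, tg, XL, XR, Y, SL, SR, P, N, M, E, nw, old, O⟩) :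
    Good x u φ ⟨.init2, ph, tg, XL, XR, Y, SL, SR, P, N, M, E, nw, old, O⟩ := by
  obtain ⟨hx, h1, h2, h3, h4, h5, h6, h7, h8, h9, h10, h11, h12, h13, h15⟩ := h
  dsimp only at h1 h2 h3 h4 h5 h6 h7 h8 h9 h10 h11 h12 h13 h15
  subst h1 h2 h3 h4 h5 h6 h7 h8 h9 h10 h11 h12
  have h0 := List.length_pos_iff.2 hx
  refine good_of (by omega) ?_
  refine Or.inl ⟨hx, [], XR.tail, slog XR 1, 0, ⟨rfl, rfl, ?_, ?_, rfl, rfl, h13⟩,
    ⟨Nat.zero_le _, rfl, rfl⟩, core_start hx _, ?_,
    ⟨Nat.zero_le _, Nat.zero_le _, rfl, rfl⟩, rfl, ?_⟩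
  · simp [per_one]
  · simp [per_one]
  · show TT (slog XR 1) [] [] [false, true]
    rw [slog_one']; rfl
  · show 12 * 0 + 3 * 2 + (16 * XR.tail.length + 11 * XR.length + 47 * nw.length) ≤ φ - 1
    rw [List.length_tail]
    omega

theorem eq_fwdA (a g : Bool) :
    astep ⟨.main, false, tg, XL, a :: XR, a :: Y, SL, g :: SR, P, N, M, E, nw, old, O⟩ =
      ⟨.main, false, tg, a :: XL, XR, Y, g :: SL, SR, false :: P,
        if g = true then true :: N else N, M, if g = true then true :: E else E, nw, old, O⟩ := by
  cases a <;> cases g <;> rfl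

theorem eq_fwdB (a g : Bool) :
    astep ⟨.main, true, tg, XL, a :: XR, Y, SL, g :: SR, P, N, M, E, nw, old, a :: O⟩ =
      ⟨.main, true, tg, a :: XL, XR, Y, g :: SL, SR, P,
        if g = true then true :: N else N, M, if g = true then true :: E else E, nw, old, O⟩ := by
  cases a <;> cases g <;> rfl

theorem eq_emitA {a b g : Bool} (hab : a ≠ b) :
    astep ⟨.main, false, tg, [], a :: XR, b :: Y, SL, g :: SR, P, N, M, E, nw, old, O⟩ =
      ⟨.emit, false, tg, [], a :: XR, b :: Y, SL, g :: SR, true :: P, N, M, E, nw, old, O⟩ := by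
  cases a <;> cases b <;> first
    | rfl
    | exact absurd rfl hab

theorem eq_emitB {a b g : Bool} (hab : a ≠ b) :
    astep ⟨.main, true, tg, [], a :: XR, Y, SL, g :: SR, P, N, M, E, nw, old, b :: O⟩ =
      ⟨.emit, true, tg, [], a :: XR, Y, SL, g :: SR, P, N, M, E, nw, old, b :: O⟩ := by
  cases a <;> cases b <;> first
    | rfl
    | exact absurd rfl hab

theorem eq_catA {a b c g : Bool} (hab : a ≠ b) :
    astep ⟨.main, false, tg, c :: XL, a :: XR, b :: Y, SL, g :: SR, P, N, M, E, nw, old, O⟩ =
      ⟨.cat, false, tg, c :: XL, a :: XR, b :: Y, SL, g :: SR, P, N, M, E, nw, old, O⟩ := by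
  cases a <;> cases b <;> first
    | rfl
    | exact absurd rfl hab

theorem eq_catB {a b c g : Bool} (hab : a ≠ b) :
    astep ⟨.main, true, tg, c :: XL, a :: XR, Y, SL, g :: SR, P, N, M, E, nw, old, b :: O⟩ =
      ⟨.cat, true, tg, c :: XL, a :: XR, Y, SL, g :: SR, P, N, M, E, nw, old, b :: O⟩ := by
  cases a <;> cases b <;> first
    | rfl
    | exact absurd rfl hab

theorem bd_le (i : ℕ) : bd x i ≤ i := by
  have := per_add_bd x i
  omega

/-- a mismatch at a positive position: data for `cat` -/
theorem cat_pot {i : ℕ} (hi : 0 < i) (hs : ST x i SL N E) :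
    bd x i + per x i = i ∧ 0 < per x i ∧ i + per x i - SL.length ≤ per x i := by
  have h1 := per_add_bd x i
  have h2 := per_pos x hi
  have h3 := hs.1
  refine ⟨by omega, h2, by omega⟩

theorem step_mainA (hx : x ≠ []) {w t lg : List Bool} {i : ℕ} {g a : Bool}
    (he : Env x u false w t lg i Y P nw old O)
    (hp : XP x i XL (a :: XR)) (hc : Core x w t i) (ht : TT lg SL (g :: SR) P)
    (hs : ST x i SL N E) (hM : M = [])
    (hφ : wI false * i + 3 * P.length + base x false Y nw O ≤ φ) :
    Good x u φ ⟨.main, false, tg, XL, a :: XR, Y, SL, g :: SR, P, N, M, E, nw, old, O⟩ := by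
  obtain ⟨h1, h2, h3, h4, h5, h6, h7⟩ := he
  have hpx := xp_fwd hp
  have hlen := self_len h1 hx
  have hm := hc.1
  have hiw : i ≤ w.length := suf_len hc.2.1 hc.1
  subst h2
  cases t with
  | nil =>
    -- end of the preprocessing
    simp only [List.length_nil, Nat.add_zero] at hlen
    have hbd : bd x (w.length + 1) = i := by
      apply le_antisymm
      · by_contra hlt
        have hsp := bd_spec x (Nat.succ_pos w.length)
        rw [Nat.succ_eq_add_one] at hsp
        have h8 := (suf_self h1 hx (r := bd x (w.length + 1)) (by omega)).2 hsp.2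
        obtain ⟨b, t', hbt, _⟩ := hc.2.2 _ (by omega) (by omega) h8
        exact absurd hbt (by simp)
      · exact self_le_bd h1 hx hc hiw
    have hper := per_add_bd x (w.length + 1)
    have hlg : lg = slog x x.length := by
      have h9 : w.length + 1 - i - per x (w.length + 1) = 0 := by omega
      rw [h4, h9, hlen]
      simp
    have hll : SL.length + (SR.length + 1) + P.length = x.length + per x x.length := by
      have h10 := congrArg List.length ht
      rw [hlg, (slog_count x le_rfl).2.2] at h10
      simp only [List.length_append, List.length_reverse, List.length_cons] at h10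
      omega
    have hpl := per_le x x.length
    have hN : N.length ≤ SL.length := by rw [hs.2.2.2]; exact List.count_le_length
    have hSL := hs.2.1
    have hpi := per_le x i
    have hE : E.length ≤ i := by have := hs.2.2.1; omega
    have hXL := xp_len hp
    simp only [wI, base, List.length_nil] at hφ
    refine good_of (by omega) ?_
    refine ⟨hx, rfl, rfl, xp_all hp, ?_, h5, h6, h7, hM, ?_⟩
    · rw [hlg] at ht; exact ht
    · show XL.length + N.length + E.length + 2 * (g :: SR).length + SL.length + P.length + 3 +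
        47 * nw.length ≤ φ - 1
      simp only [List.length_cons]
      omega
  | cons b Y =>
    simp only [List.length_cons] at hlen
    by_cases hab : a = b
    · -- forward
      subst hab
      unfold Good
      rw [eq_fwdA]
      right
      simp only [wI, base, List.length_cons] at hφ
      refine ⟨φ - 1, by omega, Or.inl ⟨hx, w ++ [a], Y, lg ++ [false], i + 1, ?_, hpx.2,
        core_fwd hc hpx.1 (by omega), tt_push _ (tt_right ht), st_fwd g hs hm, hM, ?_⟩⟩
      · have hb := self_bd_fwd h1 hx hc hpx.1
        have hper := per_add_bd x (w.length + 2)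
        have hbd := self_le_bd h1 hx hc hiw
        have hper1 := per_add_bd x (w.length + 1)
        have hl : (w ++ [a]).length = w.length + 1 := by simp
        refine ⟨by rw [← h1]; simp, rfl, ?_, ?_, h5, h6, h7⟩
        · rw [hl]; show i + 1 + per x (w.length + 2) ≤ w.length + 1 + 1; omega
        · rw [hl]
          have e1 : w.length + 1 + 1 - (i + 1) - per x (w.length + 1 + 1) = 0 := by
            show w.length + 1 + 1 - (i + 1) - per x (w.length + 2) = 0
            omega
          have e2 : per x (w.length + 1 + 1) - per x (w.length + 1) =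
              w.length + 1 - i - per x (w.length + 1) := by
            show per x (w.length + 2) - per x (w.length + 1) = _
            omega
          rw [e1, h4, slog_succ x (w.length + 1), e2]
          simp
      · show 12 * (i + 1) + 3 * (false :: P).length +
          (16 * Y.length + 11 * x.length + 47 * nw.length) ≤ φ - 1
        simp only [List.length_cons]
        omega
    · -- mismatch
      have hne : x[i]? ≠ some b := by
        rw [hpx.1]; intro h; exact hab (by simpa using h)
      cases XL with
      | nil =>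
        have hi0 : i = 0 := xp_nil hp
        subst hi0
        unfold Good
        rw [eq_emitA hab]
        right
        simp only [wI, base, List.length_cons] at hφ
        refine ⟨φ - 1, by omega, hx, w, b, Y, lg, ⟨h1, rfl, h3, h4, h5, h6, h7⟩, hp, hc, hne,
          tt_push _ ht, hs, hM, by simp, ?_⟩
        show 3 * (true :: P).length + 4 +
          (16 * (b :: Y).length + 11 * x.length + 47 * nw.length) ≤ φ - 1 + 16
        simp only [List.length_cons]
        omega
      | cons c XL =>
        have hi0 : 0 < i := xp_pos hp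
        obtain ⟨g1, g2, g3⟩ := cat_pot hi0 hs
        unfold Good
        rw [eq_catA hab]
        right
        simp only [wI, base, List.length_cons] at hφ
        refine ⟨φ - 1, by omega, hx, w, b, Y, lg, i, ⟨h1, rfl, h3, h4, h5, h6, h7⟩, hp, hc, hne,
          hi0, ht, hs, hM, ?_⟩
        show 12 * bd x i + 3 * P.length + (i + per x i - SL.length) + 6 * per x i + 4 +
          (16 * (b :: Y).length + 11 * x.length + 47 * nw.length) ≤ φ - 1
        simp only [List.length_cons]
        omega

theorem step_mainB (hx : x ≠ []) {w t lg : List Bool} {i : ℕ} {g a : Bool}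
    (he : Env x u true w t lg i Y P nw old O)
    (hp : XP x i XL (a :: XR)) (hc : Core x w t i) (ht : TT lg SL (g :: SR) P)
    (hs : ST x i SL N E) (hM : M = [])
    (hφ : wI true * i + 3 * P.length + base x true Y nw O ≤ φ) :
    Good x u φ ⟨.main, true, tg, XL, a :: XR, Y, SL, g :: SR, P, N, M, E, nw, old, O⟩ := by
  obtain ⟨h1, h2, h3, h4, h5, h6⟩ := he
  have hpx := xp_fwd hp
  have hm := hc.1
  subst h5 h6
  cases O with
  | nil =>
    cases nw with
    | nil =>
      -- idle
      left
      refine ⟨rfl, Or.inl ⟨hx, w, t, lg, i, ⟨h1, h2, h3, h4, rfl, rfl⟩, hp, hc, ht, hs, hM, ?_⟩⟩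
      show 40 * i + 3 * 0 + (44 * 0 + 47 * 0) ≤ 40 * x.length
      omega
    | cons b nw =>
      simp only [wI, base, List.length_cons, List.length_nil] at hφ
      refine good_of (by omega) ?_
      refine ⟨hx, rfl, w, t, i, h1, ?_, h3, rfl, hp, hc, ?_, hs, hM, ?_⟩
      · rw [h2]
        show [] ++ (b :: nw).reverse = (b :: nw).reverse ++ [] ++ [].reverse
        simp
      · rw [← h4]; exact ht
      · show 40 * i + 44 * (0 + (b :: nw).length) + (b :: nw).length + 1 + 47 * 0 ≤ φ - 1
        simp only [List.length_cons]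
        omega
  | cons b O =>
    simp only [List.cons_append] at h2
    subst h2
    by_cases hab : a = b
    · subst hab
      unfold Good
      rw [eq_fwdB]
      right
      simp only [wI, base, List.length_cons, List.length_nil] at hφ
      rcases Nat.lt_or_ge (i + 1) x.length with hlt | hge
      · refine ⟨φ - 1, by omega, Or.inl ⟨hx, w ++ [a], O ++ nw.reverse, lg, i + 1, ?_, hpx.2,
          core_fwd hc hpx.1 hlt, tt_right ht, st_fwd g hs hm, hM, ?_⟩⟩
        · refine ⟨by rw [← h1]; simp, rfl, nf_succ hc h3 (fun _ => hlt), h4, rfl, rfl⟩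
        · show 40 * (i + 1) + 3 * 0 + (44 * O.length + 47 * nw.length) ≤ φ - 1
          omega
      · have him : i + 1 = x.length := by omega
        refine ⟨φ - 1, by omega, Or.inr ⟨?_, rfl, ?_, ?_⟩⟩
        · have h7 := hpx.2.2.2
          rw [him, List.drop_length] at h7
          exact h7
        · have h8 := found_of_core hc hpx.1 him
          rw [← h1]
          have h9 : w ++ a :: (O ++ nw.reverse) = (w ++ [a]) ++ (O ++ nw.reverse) := by simp
          rw [h9]
          exact h8.trans (List.infix_append' [] _ _)
        · omega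
    · have hne : x[i]? ≠ some b := by
        rw [hpx.1]; intro h; exact hab (by simpa using h)
      cases XL with
      | nil =>
        have hi0 : i = 0 := xp_nil hp
        subst hi0
        unfold Good
        rw [eq_emitB hab]
        right
        simp only [wI, base, List.length_cons, List.length_nil] at hφ
        refine ⟨φ - 1, by omega, hx, w, b, O ++ nw.reverse, lg,
          ⟨h1, rfl, h3, h4, rfl, rfl⟩, hp, hc, hne, by simpa using ht, hs, hM, by simp, ?_⟩
        show 3 * 0 + 4 + (44 * (b :: O).length + 47 * nw.length) ≤ φ - 1 + 44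
        simp only [List.length_cons]
        omega
      | cons c XL =>
        have hi0 : 0 < i := xp_pos hp
        obtain ⟨g1, g2, g3⟩ := cat_pot hi0 hs
        unfold Good
        rw [eq_catB hab]
        right
        simp only [wI, base, List.length_cons, List.length_nil] at hφ
        refine ⟨φ - 1, by omega, hx, w, b, O ++ nw.reverse, lg, i,
          ⟨h1, rfl, h3, h4, rfl, rfl⟩, hp, hc, hne, hi0, ht, hs, hM, ?_⟩
        show 40 * bd x i + 3 * 0 + (i + per x i - SL.length) + 6 * per x i + 4 +
          (44 * (b :: O).length + 47 * nw.length) ≤ φ - 1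
        simp only [List.length_cons]
        omega

theorem step_main (h : Inv x u φ ⟨.main, ph, tg, XL, XR, Y, SL, SR, P, N, M, E, nw, old, O⟩) :
    Good x u φ ⟨.main, ph, tg, XL, XR, Y, SL, SR, P, N, M, E, nw, old, O⟩ := by
  rcases h with ⟨hx, w, t, lg, i, he, hp, hc, ht, hs, hM, hφ⟩ | ⟨h1, h2, h3, h4⟩
  · dsimp only at he hp hc ht hs hM hφ
    cases SR with
    | nil =>
      cases P with
      | nil => exact (sr_ne he hc hs ht).elim
      | cons g P =>
        simp only [List.length_cons] at hφ
        refine good_of (by omega) ?_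
        refine ⟨hx, w, t, lg, i, he, hp, hc, tr_of_tt ht, hs, hM, ?_⟩
        show wI ph * i + (g :: P).length + 1 + base x ph Y nw O ≤ φ - 1
        simp only [List.length_cons]
        omega
    | cons g SR =>
      cases XR with
      | nil =>
        have h1 := xp_end hp
        have h2 := hc.1
        omega
      | cons a XR =>
        cases ph with
        | false => exact step_mainA hx he hp hc ht hs hM hφ
        | true => exact step_mainB hx he hp hc ht hs hM hφ
  · dsimp only at h1 h2 h3 h4
    subst h1 h2
    refine good_of (by omega) ?_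
    cases SR with
    | nil => exact h3
    | cons g SR => exact h3

theorem eq_emitA' {b : Bool} :
    astep ⟨.emit, false, tg, XL, XR, b :: Y, SL, SR, P, N, M, E, nw, old, O⟩ =
      ⟨.main, false, tg, XL, XR, Y, SL, SR, false :: P, N, M, E, nw, old, O⟩ := rfl

theorem eq_emitB' {b : Bool} :
    astep ⟨.emit, true, tg, XL, XR, Y, SL, SR, P, N, M, E, nw, old, b :: O⟩ =
      ⟨.main, true, tg, XL, XR, Y, SL, SR, P, N, M, E, nw, old, O⟩ := rfl

theorem step_emit (h : Inv x u φ ⟨.emit, ph, tg, XL, XR, Y, SL, SR, P, N, M, E, nw, old, O⟩) :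
    Good x u φ ⟨.emit, ph, tg, XL, XR, Y, SL, SR, P, N, M, E, nw, old, O⟩ := by
  obtain ⟨hx, w, b, t, lg, he, hp, hc, hne, ht, hs, hM, hO, hφ⟩ := h
  dsimp only at he hp hc ht hs hM hO hφ
  cases ph with
  | false =>
    obtain ⟨h1, h2, h3, h4, h5, h6, h7⟩ := he
    have hlen := self_len h1 hx
    simp only [List.length_cons] at hlen
    subst h2
    simp only [base, List.length_cons, cond_false] at hφ ht
    have hb := self_bd_zero h1 hx hc hne
    have hper := per_add_bd x (w.length + 2)
    have hper1 := per_le x (w.length + 1)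
    have hl : (w ++ [b]).length = w.length + 1 := by simp
    refine good_of (by omega) ?_
    rw [eq_emitA']
    refine Or.inl ⟨hx, w ++ [b], t, (lg ++ [true]) ++ [false], 0, ?_, hp,
      core_zero hc hne, tt_push _ ht, hs, hM, ?_⟩
    · refine ⟨by rw [← h1]; simp, rfl, ?_, ?_, h5, h6, h7⟩
      · rw [hl]; show 0 + per x (w.length + 2) ≤ w.length + 1 + 1; omega
      · rw [hl]
        have e1 : w.length + 1 + 1 - 0 - per x (w.length + 1 + 1) = 0 := by
          show w.length + 1 + 1 - 0 - per x (w.length + 2) = 0
          omega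
        have e2 : per x (w.length + 1 + 1) - per x (w.length + 1) =
            (w.length + 1 - 0 - per x (w.length + 1)) + 1 := by
          show per x (w.length + 2) - per x (w.length + 1) = _
          omega
        rw [e1, h4, slog_succ x (w.length + 1), e2, List.replicate_succ']
        simp
    · show 12 * 0 + 3 * (false :: P).length +
        (16 * t.length + 11 * x.length + 47 * nw.length) ≤ φ - 1
      simp only [List.length_cons]
      omega
  | true =>
    obtain ⟨h1, h2, h3, h4, h5, h6⟩ := he
    subst h5 h6
    have hO' := hO rfl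
    cases O with
    | nil => exact absurd rfl hO'
    | cons b' O =>
      simp only [List.cons_append, List.cons.injEq] at h2
      obtain ⟨h2, h2'⟩ := h2
      subst h2 h2'
      simp only [base, List.length_cons, cond_true, List.append_nil] at hφ ht
      refine good_of (by omega) ?_
      rw [eq_emitB']
      refine Or.inl ⟨hx, w ++ [b], O ++ nw.reverse, lg, 0, ?_, hp,
        core_zero hc hne, ht, hs, hM, ?_⟩
      · have hm := hc.1
        refine ⟨by rw [← h1]; simp, rfl, nf_succ hc h3 (fun h => absurd h hne), h4, rfl, rfl⟩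
      · show 40 * 0 + 3 * 0 + (44 * O.length + 47 * nw.length) ≤ φ - 1
        simp only [List.length_nil] at hφ
        omega

theorem step_cat (h : Inv x u φ ⟨.cat, ph, tg, XL, XR, Y, SL, SR, P, N, M, E, nw, old, O⟩) :
    Good x u φ ⟨.cat, ph, tg, XL, XR, Y, SL, SR, P, N, M, E, nw, old, O⟩ := by
  obtain ⟨hx, w, b, t, lg, i, he, hp, hc, hne, hi, ht, hs, hM, hφ⟩ := h
  dsimp only at he hp hc ht hs hM hφ
  have hpre : slog x i <+: lg := (slog_isPrefix x (Nat.le_succ i)).trans (log_pre he hc)
  refine good_of (by omega) ?_
  cases E with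
  | nil =>
    have h1 := st_full hp.1 (tt_pre ht) hpre hs
    have hl := (slog_count x hp.1).2
    have h2 : SL.length = i + per x i := by rw [← hl.2, ← h1, List.length_reverse]
    have h3 : N.length = per x i := by
      rw [hs.2.2.2, ← hl.1, ← h1, List.count_reverse]
    refine ⟨hx, w, b, t, lg, i, he, hp, hc, hne, hi, ht, h1, ?_, ?_, ?_⟩
    · show N.length + M.length = per x i
      rw [hM, h3]; rfl
    · show ([] : List Bool).length = M.length
      rw [hM]
    · show wI ph * bd x i + 3 * P.length + 5 * per x i + N.length + 3 + base x ph Y nw O ≤ φ - 1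
      omega
  | cons e E =>
    have hsh := st_short hp.1 (tt_pre ht) hpre hs (by simp)
    cases SR with
    | nil =>
      cases P with
      | nil => exact (sr_ne he hc hs ht).elim
      | cons g P =>
        simp only [List.length_cons] at hφ
        refine ⟨hx, w, b, t, lg, i, he, hp, hc, hne, hi, tr_of_tt ht, hs, hM, ?_⟩
        show wI ph * bd x i + (g :: P).length + 1 + (i + per x i - SL.length) + 6 * per x i + 4 +
          base x ph Y nw O ≤ φ - 1
        simp only [List.length_cons]
        omega
    | cons g SR =>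
      have h1 := st_one (g := g) hs hsh
      cases g with
      | false =>
        refine ⟨hx, w, b, t, lg, i, he, hp, hc, hne, hi, tt_right ht, h1, hM, ?_⟩
        show wI ph * bd x i + 3 * P.length + (i + per x i - (false :: SL).length) +
          6 * per x i + 4 + base x ph Y nw O ≤ φ - 1
        simp only [List.length_cons]
        omega
      | true =>
        refine ⟨hx, w, b, t, lg, i, he, hp, hc, hne, hi, tt_right ht, h1, hM, ?_⟩
        show wI ph * bd x i + 3 * P.length + (i + per x i - (true :: SL).length) +
          6 * per x i + 4 + base x ph Y nw O ≤ φ - 1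
        simp only [List.length_cons]
        omega

theorem env_P {w t lg : List Bool} {i : ℕ} {g : Bool}
    (he : Env x u ph w t lg i Y (g :: P) nw old O) : Env x u ph w t lg i Y P nw old O := by
  cases ph with
  | false => exact he
  | true =>
    obtain ⟨h1, h2, h3, h4, h5, h6⟩ := he
    exact absurd h5 (by simp)

theorem step_rev {r : Bool}
    (h : Inv x u φ ⟨.rev r, ph, tg, XL, XR, Y, SL, SR, P, N, M, E, nw, old, O⟩) :
    Good x u φ ⟨.rev r, ph, tg, XL, XR, Y, SL, SR, P, N, M, E, nw, old, O⟩ := by
  cases r with
  | false =>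
    obtain ⟨hx, w, t, lg, i, he, hp, hc, ht, hs, hM, hφ⟩ := h
    dsimp only at he hp hc ht hs hM hφ
    cases P with
    | nil =>
      simp only [List.length_nil] at hφ
      refine good_of (by omega) (Or.inl ⟨hx, w, t, lg, i, he, hp, hc, tt_of_tr ht, hs, hM, ?_⟩)
      show wI ph * i + 3 * 0 + base x ph Y nw O ≤ φ - 1
      omega
    | cons g P =>
      simp only [List.length_cons] at hφ
      refine good_of (by omega) ⟨hx, w, t, lg, i, env_P he, hp, hc, tr_step ht, hs, hM, ?_⟩
      show wI ph * i + P.length + 1 + base x ph Y nw O ≤ φ - 1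
      omega
  | true =>
    obtain ⟨hx, w, b, t, lg, i, he, hp, hc, hne, hi, ht, hs, hM, hφ⟩ := h
    dsimp only at he hp hc ht hs hM hφ
    cases P with
    | nil =>
      simp only [List.length_nil] at hφ
      refine good_of (by omega)
        ⟨hx, w, b, t, lg, i, he, hp, hc, hne, hi, tt_of_tr ht, hs, hM, ?_⟩
      show wI ph * bd x i + 3 * 0 + (i + per x i - SL.length) + 6 * per x i + 4 +
        base x ph Y nw O ≤ φ - 1
      omega
    | cons g P =>
      simp only [List.length_cons] at hφ
      refine good_of (by omega)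
        ⟨hx, w, b, t, lg, i, env_P he, hp, hc, hne, hi, tr_step ht, hs, hM, ?_⟩
      show wI ph * bd x i + P.length + 1 + (i + per x i - SL.length) + 6 * per x i + 4 +
        base x ph Y nw O ≤ φ - 1
      omega

theorem step_cp (h : Inv x u φ ⟨.cp, ph, tg, XL, XR, Y, SL, SR, P, N, M, E, nw, old, O⟩) :
    Good x u φ ⟨.cp, ph, tg, XL, XR, Y, SL, SR, P, N, M, E, nw, old, O⟩ := by
  obtain ⟨hx, w, b, t, lg, i, he, hp, hc, hne, hi, ht, hs, hN, hE, hφ⟩ := h
  dsimp only at he hp hc ht hs hN hE hφ
  refine good_of (by omega) ?_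
  cases N with
  | nil =>
    simp only [List.length_nil, Nat.zero_add] at hN hφ
    have h1 := per_add_bd x i
    refine ⟨hx, w, b, t, lg, i, bd x i, 0, he, hp, core_shift hc hne hi, ?_, ht, ?_, ?_, rfl, ?_⟩
    · show i = bd x i + E.length
      omega
    · show SL.reverse = slog x i ++ List.replicate 0 true
      rw [hs]; simp
    · show M.length = per x i + 0
      omega
    · show wI ph * bd x i + 3 * P.length + 4 * E.length + M.length + 2 + base x ph Y nw O ≤ φ - 1
      omega
  | cons n N =>
    simp only [List.length_cons] at hN hφ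
    refine ⟨hx, w, b, t, lg, i, he, hp, hc, hne, hi, ht, hs, ?_, ?_, ?_⟩
    · show N.length + (true :: M).length = per x i
      simp only [List.length_cons]; omega
    · show (true :: E).length = (true :: M).length
      simp only [List.length_cons]; omega
    · show wI ph * bd x i + 3 * P.length + 5 * per x i + N.length + 3 + base x ph Y nw O ≤ φ - 1
      omega

theorem step_cb (h : Inv x u φ ⟨.cb, ph, tg, XL, XR, Y, SL, SR, P, N, M, E, nw, old, O⟩) :
    Good x u φ ⟨.cb, ph, tg, XL, XR, Y, SL, SR, P, N, M, E, nw, old, O⟩ := by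
  obtain ⟨hx, w, b, t, lg, i, he, hp, hc, hE, ht, hs, hN, hφ⟩ := h
  dsimp only at he hp hc ht hs hN hE hφ
  refine good_of (by omega) ?_
  cases M with
  | nil =>
    simp only [List.length_nil, Nat.add_zero] at hN hφ
    subst hE
    refine Or.inl ⟨hx, w, b :: t, lg, i, he, hp, hc, ht, st_of_eq hp.1 hs hN, rfl, ?_⟩
    show wI ph * i + 3 * P.length + base x ph Y nw O ≤ φ - 1
    omega
  | cons n M =>
    simp only [List.length_cons] at hN hφ
    refine ⟨hx, w, b, t, lg, i, he, hp, hc, hE, ht, hs, ?_, ?_⟩
    · show (true :: N).length + M.length = per x i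
      simp only [List.length_cons]; omega
    · show wI ph * i + 3 * P.length + M.length + 1 + base x ph Y nw O ≤ φ - 1
      omega

theorem slog_last {k : ℕ} {SL : List Bool} {g : Bool} (h : (g :: SL).reverse = slog x (k + 1)) :
    g = false ∧ SL.reverse = slog x k ++ List.replicate (per x (k + 1) - per x k) true := by
  have h0 : slog x (k + 1) = (slog x k ++ List.replicate (per x (k + 1) - per x k) true) ++
      [false] := by rw [slog]
  rw [h0, List.reverse_cons] at h
  have := List.append_inj' h rfl
  exact ⟨by simpa using this.2, this.1⟩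

theorem step_sh (h : Inv x u φ ⟨.sh, ph, tg, XL, XR, Y, SL, SR, P, N, M, E, nw, old, O⟩) :
    Good x u φ ⟨.sh, ph, tg, XL, XR, Y, SL, SR, P, N, M, E, nw, old, O⟩ := by
  obtain ⟨hx, w, b, t, lg, i, i', r, he, hp, hc, hi, ht, hs, hM, hN, hφ⟩ := h
  dsimp only at he hp hc ht hi hs hM hN hφ
  refine good_of (by omega) ?_
  cases r with
  | zero =>
    simp only [List.replicate_zero, List.append_nil, Nat.add_zero] at hs hM
    cases E with
    | nil =>
      simp only [List.length_nil, Nat.add_zero] at hi
      subst hi
      have hgoal : Inv x u (φ - 1)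
          ⟨.cb, ph, tg, XL, XR, Y, SL, SR, P, N, M, [], nw, old, O⟩ := by
        refine ⟨hx, w, b, t, lg, i, he, hp, hc, rfl, ht, hs, ?_, ?_⟩
        · show N.length + M.length = per x i
          rw [hN, hM]; simp
        · show wI ph * i + 3 * P.length + M.length + 1 + base x ph Y nw O ≤ φ - 1
          simp only [List.length_nil] at hφ
          omega
      cases SL with
      | nil => exact hgoal
      | cons g SL =>
        cases i with
        | zero => exact absurd hs (by simp [slog])
        | succ k =>
          obtain ⟨h1, _⟩ := slog_last hs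
          subst h1
          exact hgoal
    | cons e E =>
      simp only [List.length_cons] at hi hφ
      obtain ⟨k, rfl⟩ : ∃ k, i = k + 1 := ⟨i - 1, by omega⟩
      obtain ⟨a, XL', rfl, hp'⟩ := xp_bwd hp
      cases SL with
      | nil =>
        exfalso
        have := congrArg List.length hs
        rw [(slog_count x hp.1).2.2] at this
        simp only [List.reverse_nil, List.length_nil] at this
        omega
      | cons g SL =>
        obtain ⟨h1, h2⟩ := slog_last hs
        subst h1
        have hmono := per_mono x (i := k) (by have := hp.1; omega)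
        cases ph with
        | false =>
          obtain ⟨e1, e2, e3, e4, e5, e6, e7⟩ := he
          refine ⟨hx, w, b, t, lg ++ [true], k, i', per x (k + 1) - per x k,
            ⟨e1, e2, by omega, ?_, e5, e6, e7⟩, hp', hc, ?_, tt_push _ (tt_left ht), h2, ?_, hN,
            ?_⟩
          · have e8 : w.length + 1 - k - per x (w.length + 1) =
                (w.length + 1 - (k + 1) - per x (w.length + 1)) + 1 := by omega
            rw [e8, List.replicate_succ', e4, List.append_assoc]
          · show k = i' + E.length
            omega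
          · show M.length = per x k + (per x (k + 1) - per x k)
            omega
          · show wI false * i' + 3 * (true :: P).length + 4 * E.length + M.length + 2 +
              base x false Y nw O ≤ φ - 1
            simp only [List.length_cons]
            omega
        | true =>
          refine ⟨hx, w, b, t, lg, k, i', per x (k + 1) - per x k, he, hp', hc, ?_,
            tt_left ht, h2, ?_, hN, ?_⟩
          · show k = i' + E.length
            omega
          · show M.length = per x k + (per x (k + 1) - per x k)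
            omega
          · show wI true * i' + 3 * P.length + 4 * E.length + M.length + 2 +
              base x true Y nw O ≤ φ - 1
            omega
  | succ r =>
    have h0 : (slog x i ++ List.replicate r true) ++ [true] = SL.reverse := by
      rw [hs, List.replicate_succ', List.append_assoc]
    cases SL with
    | nil => exact absurd h0 (by simp)
    | cons g SL =>
      rw [List.reverse_cons] at h0
      have h1 := List.append_inj' h0 rfl
      have hg : g = true := by have := h1.2; simpa using this.symm
      subst hg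
      refine ⟨hx, w, b, t, lg, i, i', r, he, hp, hc, hi, tt_left ht, h1.1.symm, ?_, hN, ?_⟩
      · show M.tail.length = per x i + r
        rw [List.length_tail]; omega
      · show wI ph * i' + 3 * P.length + 4 * E.length + M.tail.length + 2 +
          base x ph Y nw O ≤ φ - 1
        rw [List.length_tail]; omega

theorem step_qrev (h : Inv x u φ ⟨.qrev, ph, tg, XL, XR, Y, SL, SR, P, N, M, E, nw, old, O⟩) :
    Good x u φ ⟨.qrev, ph, tg, XL, XR, Y, SL, SR, P, N, M, E, nw, old, O⟩ := by
  obtain ⟨hx, hph, w, t, i, h1, h2, h3, hP, hp, hc, ht, hs, hM, hφ⟩ := h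
  dsimp only at hph h1 h2 hP hp ht hs hM hφ
  subst hph hP
  refine good_of (by omega) ?_
  cases old with
  | nil =>
    refine Or.inl ⟨hx, w, t, slog x x.length, i, ⟨h1, ?_, h3, rfl, rfl, rfl⟩, hp, hc, ht, hs,
      hM, ?_⟩
    · rw [h2]; rfl
    · show 40 * i + 3 * 0 + (44 * O.length + 47 * nw.length) ≤ φ - 1
      simp only [List.length_nil] at hφ
      omega
  | cons g old =>
    refine ⟨hx, rfl, w, t, i, h1, ?_, h3, rfl, hp, hc, ht, hs, hM, ?_⟩
    · rw [h2]
      show (g :: old).reverse ++ O ++ nw.reverse = old.reverse ++ (g :: O) ++ nw.reverse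
      simp
    · show 40 * i + 44 * ((g :: O).length + old.length) + old.length + 1 + 47 * nw.length ≤ φ - 1
      simp only [List.length_cons] at hφ ⊢
      omega

theorem step_rw1 (h : Inv x u φ ⟨.rw1, ph, tg, XL, XR, Y, SL, SR, P, N, M, E, nw, old, O⟩) :
    Good x u φ ⟨.rw1, ph, tg, XL, XR, Y, SL, SR, P, N, M, E, nw, old, O⟩ := by
  obtain ⟨hx, hph, hY, h1, h2, h3, h4, h5, hM, hφ⟩ := h
  dsimp only at hph hY h1 h2 h3 h4 h5 hM hφ
  subst hph hY h3 h4 hM
  refine good_of (by omega) ?_
  by_cases hall : XL = [] ∧ SR = [] ∧ N = [] ∧ E = []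
  · obtain ⟨rfl, rfl, rfl, rfl⟩ := hall
    refine ⟨hx, rfl, rfl, h1, rfl, rfl, rfl, tr_of_tt h2, rfl, rfl, h5, ?_⟩
    show P.length + SL.length + 2 + 47 * nw.length ≤ φ - 1
    simp only [List.length_nil] at hφ
    omega
  · have hgoal : Inv x u (φ - 1) ⟨.rw1, false, tg, XL.tail, (pushOpt XL.head?).app XR, [],
        (pushOpt SR.head?).app SL, SR.tail, P, N.tail, [], E.tail, nw, [], []⟩ := by
      refine ⟨hx, rfl, rfl, ?_, ?_, rfl, rfl, h5, rfl, ?_⟩
      · show XL.tail.reverse ++ (pushOpt XL.head?).app XR = x
        rw [← h1]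
        cases XL with
        | nil => rfl
        | cons a XL =>
          show XL.reverse ++ (a :: XR) = (a :: XL).reverse ++ XR
          simp
      · show TT _ ((pushOpt SR.head?).app SL) SR.tail P
        cases SR with
        | nil => exact h2
        | cons a SR => exact tt_right h2
      · show XL.tail.length + N.tail.length + E.tail.length + 2 * SR.tail.length +
          ((pushOpt SR.head?).app SL).length + P.length + 3 + 47 * nw.length ≤ φ - 1
        have hSL : ((pushOpt SR.head?).app SL).length + 2 * SR.tail.length +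
            (if SR = [] then 0 else 1) ≤ SL.length + 2 * SR.length := by
          cases SR with
          | nil => simp [pushOpt, Op.app]
          | cons a SR =>
            simp only [pushOpt, Op.app, List.head?_cons, List.length_cons, List.tail_cons]
            simp
            omega
        have hlen : ∀ l : List Bool, l.tail.length + (if l = [] then 0 else 1) = l.length := by
          intro l
          cases l <;> simp
        have a1 := hlen XL
        have a2 := hlen N
        have a3 := hlen E
        by_cases b1 : XL = [] <;> by_cases b2 : SR = [] <;> by_cases b3 : N = [] <;>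
          by_cases b4 : E = [] <;>
          simp only [b1, b2, b3, b4, if_true, if_false, and_self, not_true_eq_false] at * <;>
          (try simp only [List.length_nil, List.tail_nil] at *) <;> omega
    have heq : astep ⟨.rw1, false, tg, XL, XR, [], SL, SR, P, N, [], E, nw, [], []⟩ =
        ⟨.rw1, false, tg, XL.tail, (pushOpt XL.head?).app XR, [],
        (pushOpt SR.head?).app SL, SR.tail, P, N.tail, [], E.tail, nw, [], []⟩ := by
      cases XL <;> cases SR <;> cases N <;> cases E <;> first
        | rfl
        | exact absurd ⟨rfl, rfl, rfl, rfl⟩ hall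
    rw [heq]
    exact hgoal

theorem step_rw2 (h : Inv x u φ ⟨.rw2, ph, tg, XL, XR, Y, SL, SR, P, N, M, E, nw, old, O⟩) :
    Good x u φ ⟨.rw2, ph, tg, XL, XR, Y, SL, SR, P, N, M, E, nw, old, O⟩ := by
  obtain ⟨hx, h1, h2, h3, h4, h5, h6, h7, h8, h9, h10, hφ⟩ := h
  dsimp only at h1 h2 h3 h4 h5 h6 h7 h8 h9 h10 hφ
  refine good_of (by omega) ?_
  cases P with
  | nil =>
    refine ⟨hx, h1, h2, h3, h4, h5, h6, rfl, tt_of_tr h7, h8, h9, h10, ?_⟩
    show SL.length + 1 + 47 * nw.length ≤ φ - 1
    simp only [List.length_nil] at hφ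
    omega
  | cons g P =>
    refine ⟨hx, h1, h2, h3, h4, h5, h6, tr_step h7, h8, h9, h10, ?_⟩
    show P.length + SL.length + 2 + 47 * nw.length ≤ φ - 1
    simp only [List.length_cons] at hφ
    omega

theorem step_rw3 (h : Inv x u φ ⟨.rw3, ph, tg, XL, XR, Y, SL, SR, P, N, M, E, nw, old, O⟩) :
    Good x u φ ⟨.rw3, ph, tg, XL, XR, Y, SL, SR, P, N, M, E, nw, old, O⟩ := by
  obtain ⟨hx, h1, h2, h3, h4, h5, h6, h7, h8, h9, h10, h11, hφ⟩ := h
  dsimp only at h1 h2 h3 h4 h5 h6 h7 h8 h9 h10 h11 hφ
  refine good_of (by omega) ?_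
  cases SL with
  | nil =>
    subst h2 h4 h5 h6 h7 h9 h10
    refine Or.inl ⟨hx, [], u, slog x x.length, 0, ⟨rfl, ?_, ?_, rfl, rfl, rfl⟩, ?_,
      core_start hx _, h8, ?_, rfl, ?_⟩
    · rw [← h11]; rfl
    · intro h
      exact hx (List.infix_nil.1 h)
    · exact ⟨Nat.zero_le _, rfl, by rw [List.drop_zero]; exact h3⟩
    · exact ⟨Nat.zero_le _, Nat.zero_le _, rfl, rfl⟩
    · show 40 * 0 + 3 * 0 + (44 * 0 + 47 * nw.length) ≤ φ - 1
      simp only [List.length_nil] at hφ
      omega
  | cons g SL =>
    refine ⟨hx, h1, h2, h3, h4, h5, h6, h7, tt_left h8, h9, h10, h11, ?_⟩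
    show SL.length + 1 + 47 * nw.length ≤ φ - 1
    simp only [List.length_cons] at hφ
    omega

/-- **Step lemma.** -/
theorem step_good (s : AC) (h : Inv x u φ s) : Good x u φ s := by
  obtain ⟨pc, ph, tg, XL, XR, Y, SL, SR, P, N, M, E, nw, old, O⟩ := s
  cases pc with
  | read => exact h.elim
  | dead => exact h.elim
  | found => exact Or.inl ⟨rfl, h⟩
  | init => exact step_init h
  | init2 => exact step_init2 h
  | main => exact step_main h
  | emit => exact step_emit h
  | cat => exact step_cat h
  | rev r => exact step_rev h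
  | cp => exact step_cp h
  | sh => exact step_sh h
  | cb => exact step_cb h
  | qrev => exact step_qrev h
  | rw1 => exact step_rw1 h
  | rw2 => exact step_rw2 h
  | rw3 => exact step_rw3 h

theorem iter_inv (n : ℕ) : ∀ (φ : ℕ) (s : AC), Inv x u φ s →
    Inv x u (max (φ - n) (40 * x.length)) (astep^[n] s) := by
  induction n with
  | zero => intro φ s h; exact inv_mono h (by simp)
  | succ n ih =>
    intro φ s h
    rw [Function.iterate_succ_apply]
    rcases step_good s h with ⟨h1, h2⟩ | ⟨φ', h1, h2⟩
    · rw [h1]
      exact inv_mono (ih _ s h2) (by omega)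
    · exact inv_mono (ih _ _ h2) (by omega)

end Pool.Agent.Lib.RT45
end

section

/-!
# The reversed pattern language is in `REALTIME`
-/

namespace Pool.Agent.Lib.RT45

variable {x u : List Bool} {φ : ℕ} {ph tg : Bool} {XL XR Y SL SR P N M E nw old O : List Bool}

/-- the part of the text that is appended by an input symbol -/
def ext (ph b : Bool) : List Bool := bif ph then [b] else []

theorem env_inp {w t lg : List Bool} {i : ℕ} (b : Bool)
    (he : Env x u ph w t lg i Y P nw old O) :
    Env x (u ++ [b]) ph w (t ++ ext ph b) lg i Y P (b :: nw) old O := by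
  cases ph with
  | false =>
    obtain ⟨h1, h2, h3, h4, h5, h6, h7⟩ := he
    refine ⟨?_, ?_, h3, h4, h5, h6, ?_⟩
    · show w ++ (t ++ []) = x.tail
      rw [List.append_nil]; exact h1
    · show t ++ [] = Y
      rw [List.append_nil]; exact h2
    · rw [List.reverse_cons, h7]
  | true =>
    obtain ⟨h1, h2, h3, h4, h5, h6⟩ := he
    refine ⟨?_, ?_, h3, h4, h5, h6⟩
    · show w ++ (t ++ [b]) = u ++ [b]
      rw [← List.append_assoc, h1]
    · show t ++ [b] = O ++ (b :: nw).reverse
      rw [h2, List.reverse_cons, List.append_assoc]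

theorem base_inp (b : Bool) : base x ph Y (b :: nw) O = base x ph Y nw O + 47 := by
  cases ph
  · simp only [base, List.length_cons]; omega
  · simp only [base, List.length_cons]; omega

theorem inv_inp (b : Bool) (s : AC) (h : Inv x u φ s) :
    Inv x (u ++ [b]) (φ + 47) (ainp s (.bit b)) := by
  obtain ⟨pc, ph, tg, XL, XR, Y, SL, SR, P, N, M, E, nw, old, O⟩ := s
  cases pc with
  | read => exact h.elim
  | dead => exact h.elim
  | found =>
    have h' : x <:+: u := h
    exact h'.trans (List.infix_append' [] u [b])
  | init =>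
    obtain ⟨h1, h2, h3, h4, h5, h6, h7, h8, h9, h10, h11, h12, h13, h14, h15⟩ := h
    dsimp only at h13 h15
    refine ⟨h1, h2, h3, h4, h5, h6, h7, h8, h9, h10, h11, h12, ?_, by omega, fun hx => ?_⟩
    · show (b :: nw).reverse = u ++ [b]
      rw [List.reverse_cons, h13]
    · have := h15 hx
      show 27 * x.length + 47 * (b :: nw).length ≤ φ + 47 + 8
      simp only [List.length_cons]; omega
  | init2 =>
    obtain ⟨h1, h2, h3, h4, h5, h6, h7, h8, h9, h10, h11, h12, h13, h14, h15⟩ := h
    dsimp only at h14 h15
    refine ⟨h1, h2, h3, h4, h5, h6, h7, h8, h9, h10, h11, h12, h13, ?_, ?_⟩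
    · show (b :: nw).reverse = u ++ [b]
      rw [List.reverse_cons, h14]
    · show 27 * x.length + 47 * (b :: nw).length ≤ φ + 47 + 9
      simp only [List.length_cons]; omega
  | main =>
    rcases h with ⟨hx, w, t, lg, i, h1, h2, h3, h4, h5, h6, h7⟩ | ⟨h1, h2, h3, h4⟩
    · refine Or.inl ⟨hx, w, t ++ ext ph b, lg, i, env_inp b h1, h2, core_app h3 _, h4, h5, h6, ?_⟩
      show wI ph * i + 3 * P.length + base x ph Y (b :: nw) O ≤ φ + 47
      rw [base_inp]
      dsimp only at h7
      omega
    · exact Or.inr ⟨h1, h2, h3.trans (List.infix_append' [] u [b]), by omega⟩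
  | emit =>
    obtain ⟨hx, w, c, t, lg, h1, h2, h3, h4, h5, h6, h7, h8, h9⟩ := h
    refine ⟨hx, w, c, t ++ ext ph b, lg, env_inp b h1, h2, core_app h3 _, h4, h5, h6, h7, h8, ?_⟩
    show 3 * P.length + 4 + base x ph Y (b :: nw) O ≤ φ + 47 + bif ph then 44 else 16
    rw [base_inp]
    dsimp only at h9
    omega
  | cat =>
    obtain ⟨hx, w, c, t, lg, i, h1, h2, h3, h4, h5, h6, h7, h8, h9⟩ := h
    refine ⟨hx, w, c, t ++ ext ph b, lg, i, env_inp b h1, h2, core_app h3 _, h4, h5, h6, h7, h8,
      ?_⟩
    show wI ph * bd x i + 3 * P.length + (i + per x i - SL.length) + 6 * per x i + 4 +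
        base x ph Y (b :: nw) O ≤ φ + 47
    rw [base_inp]
    dsimp only at h9
    omega
  | rev r =>
    cases r with
    | false =>
      obtain ⟨hx, w, t, lg, i, h1, h2, h3, h4, h5, h6, h7⟩ := h
      refine ⟨hx, w, t ++ ext ph b, lg, i, env_inp b h1, h2, core_app h3 _, h4, h5, h6, ?_⟩
      show wI ph * i + P.length + 1 + base x ph Y (b :: nw) O ≤ φ + 47
      rw [base_inp]
      dsimp only at h7
      omega
    | true =>
      obtain ⟨hx, w, c, t, lg, i, h1, h2, h3, h4, h5, h6, h7, h8, h9⟩ := h
      refine ⟨hx, w, c, t ++ ext ph b, lg, i, env_inp b h1, h2, core_app h3 _, h4, h5, h6, h7, h8,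
        ?_⟩
      show wI ph * bd x i + P.length + 1 + (i + per x i - SL.length) + 6 * per x i + 4 +
          base x ph Y (b :: nw) O ≤ φ + 47
      rw [base_inp]
      dsimp only at h9
      omega
  | cp =>
    obtain ⟨hx, w, c, t, lg, i, h1, h2, h3, h4, h5, h6, h7, h8, h9, h10⟩ := h
    refine ⟨hx, w, c, t ++ ext ph b, lg, i, env_inp b h1, h2, core_app h3 _, h4, h5, h6, h7, h8,
      h9, ?_⟩
    show wI ph * bd x i + 3 * P.length + 5 * per x i + N.length + 3 +
        base x ph Y (b :: nw) O ≤ φ + 47
    rw [base_inp]
    dsimp only at h10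
    omega
  | sh =>
    obtain ⟨hx, w, c, t, lg, i, i', r, h1, h2, h3, h4, h5, h6, h7, h8, h9⟩ := h
    refine ⟨hx, w, c, t ++ ext ph b, lg, i, i', r, env_inp b h1, h2, core_app h3 _, h4, h5, h6,
      h7, h8, ?_⟩
    show wI ph * i' + 3 * P.length + 4 * E.length + M.length + 2 +
        base x ph Y (b :: nw) O ≤ φ + 47
    rw [base_inp]
    dsimp only at h9
    omega
  | cb =>
    obtain ⟨hx, w, c, t, lg, i, h1, h2, h3, h4, h5, h6, h7, h8⟩ := h
    refine ⟨hx, w, c, t ++ ext ph b, lg, i, env_inp b h1, h2, core_app h3 _, h4, h5, h6,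
      h7, ?_⟩
    show wI ph * i + 3 * P.length + M.length + 1 + base x ph Y (b :: nw) O ≤ φ + 47
    rw [base_inp]
    dsimp only at h8
    omega
  | qrev =>
    obtain ⟨hx, hp, w, t, i, h1, h2, h3, h4, h5, h6, h7, h8, h9, h10⟩ := h
    dsimp only at h2 h10
    refine ⟨hx, hp, w, t ++ [b], i, ?_, ?_, h3, h4, h5, core_app h6 _, h7, h8, h9, ?_⟩
    · rw [← List.append_assoc, h1]
    · show t ++ [b] = old.reverse ++ O ++ (b :: nw).reverse
      rw [h2, List.reverse_cons, List.append_assoc (old.reverse ++ O)]
    · show 40 * i + 44 * (O.length + old.length) + old.length + 1 + 47 * (b :: nw).length ≤ φ + 47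
      simp only [List.length_cons]; omega
  | rw1 =>
    obtain ⟨hx, h1, h2, h3, h4, h5, h6, h7, h8, h9⟩ := h
    dsimp only at h7 h9
    refine ⟨hx, h1, h2, h3, h4, h5, h6, ?_, h8, ?_⟩
    · show (b :: nw).reverse = u ++ [b]
      rw [List.reverse_cons, h7]
    · show XL.length + N.length + E.length + 2 * SR.length + SL.length +
        P.length + 3 + 47 * (b :: nw).length ≤ φ + 47
      simp only [List.length_cons]; omega
  | rw2 =>
    obtain ⟨hx, h1, h2, h3, h4, h5, h6, h7, h8, h9, h10, h11⟩ := h
    dsimp only at h10 h11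
    refine ⟨hx, h1, h2, h3, h4, h5, h6, h7, h8, h9, ?_, ?_⟩
    · show (b :: nw).reverse = u ++ [b]
      rw [List.reverse_cons, h10]
    · show P.length + SL.length + 2 + 47 * (b :: nw).length ≤ φ + 47
      simp only [List.length_cons]; omega
  | rw3 =>
    obtain ⟨hx, h1, h2, h3, h4, h5, h6, h7, h8, h9, h10, h11, h12⟩ := h
    dsimp only at h11 h12
    refine ⟨hx, h1, h2, h3, h4, h5, h6, h7, h8, h9, h10, ?_, ?_⟩
    · show (b :: nw).reverse = u ++ [b]
      rw [List.reverse_cons, h11]
    · show SL.length + 1 + 47 * (b :: nw).length ≤ φ + 47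
      simp only [List.length_cons]; omega

theorem short_not (h : u.length < x.length) : ¬ x <:+: u := fun h1 => by
  have := h1.length_le
  omega

theorem slack_env (hx : x ≠ []) {w t lg : List Bool} {i k : ℕ}
    (he : Env x u ph w t lg k Y P nw old O) (hc : Core x w t i)
    (hφ : wI ph * i + base x ph Y nw O ≤ 40 * x.length) : ¬ x <:+: u := by
  have h0 := List.length_pos_iff.2 hx
  cases ph with
  | false =>
    obtain ⟨_, _, _, _, _, _, h7⟩ := he
    apply short_not
    rw [← h7, List.length_reverse]
    simp only [base] at hφ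
    omega
  | true =>
    obtain ⟨h1, h2, h3, _, _, _⟩ := he
    rw [← h1]
    have hm := hc.1
    refine nf_of_slack hx h3 hc.2.2 ?_
    have : t.length = O.length + nw.length := by rw [h2]; simp
    simp only [base, wI] at hφ
    omega

/-- **Slack lemma**: as long as nothing has been found, there is no occurrence. -/
theorem slack (s : AC) (h : Inv x u (40 * x.length) s) (hs : s.pc ≠ .found) : ¬ x <:+: u := by
  obtain ⟨pc, ph, tg, XL, XR, Y, SL, SR, P, N, M, E, nw, old, O⟩ := s
  cases pc with
  | read => exact h.elim
  | dead => exact h.elim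
  | found => exact absurd rfl hs
  | init =>
    obtain ⟨h1, h2, h3, h4, h5, h6, h7, h8, h9, h10, h11, h12, h13, h14, h15⟩ := h
    dsimp only at h13 h15
    have hx : x ≠ [] := by rintro rfl; simp at h14
    have := h15 hx
    apply short_not
    rw [← h13, List.length_reverse]
    omega
  | init2 =>
    obtain ⟨hx, h2, h3, h4, h5, h6, h7, h8, h9, h10, h11, h12, h13, h14, h15⟩ := h
    dsimp only at h14 h15
    have h0 := List.length_pos_iff.2 hx
    apply short_not
    rw [← h14, List.length_reverse]
    omega
  | main =>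
    rcases h with ⟨hx, w, t, lg, i, h1, h2, h3, h4, h5, h6, h7⟩ | ⟨h1, h2, h3, h4⟩
    · dsimp only at h1 h7
      exact slack_env hx h1 h3 (by omega)
    · omega
  | emit =>
    obtain ⟨hx, w, c, t, lg, h1, h2, h3, h4, h5, h6, h7, h8, h9⟩ := h
    dsimp only at h1 h9
    have h0 := List.length_pos_iff.2 hx
    cases ph with
    | false =>
      obtain ⟨_, _, _, _, _, _, g7⟩ := h1
      apply short_not
      rw [← g7, List.length_reverse]
      simp only [base, cond_false] at h9
      omega
    | true =>
      obtain ⟨g1, g2, g3, _, _, _⟩ := h1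
      have hnf : ¬ x <:+: w ++ [c] := nf_succ h3 g3 (fun h => absurd h h4)
      have hc := core_zero h3 h4
      have : w ++ c :: t = (w ++ [c]) ++ t := by simp
      rw [← g1, this]
      refine nf_of_slack hx hnf hc.2.2 ?_
      have hl : t.length + 1 = O.length + nw.length := by
        have := congrArg List.length g2
        simpa using this
      simp only [base, cond_true] at h9
      omega
  | cat =>
    obtain ⟨hx, w, c, t, lg, i, h1, h2, h3, h4, h5, h6, h7, h8, h9⟩ := h
    dsimp only at h1 h9
    exact slack_env hx h1 (core_shift h3 h4 h5) (by omega)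
  | rev r =>
    cases r with
    | false =>
      obtain ⟨hx, w, t, lg, i, h1, h2, h3, h4, h5, h6, h7⟩ := h
      dsimp only at h1 h7
      exact slack_env hx h1 h3 (by omega)
    | true =>
      obtain ⟨hx, w, c, t, lg, i, h1, h2, h3, h4, h5, h6, h7, h8, h9⟩ := h
      dsimp only at h1 h9
      exact slack_env hx h1 (core_shift h3 h4 h5) (by omega)
  | cp =>
    obtain ⟨hx, w, c, t, lg, i, h1, h2, h3, h4, h5, h6, h7, h8, h9, h10⟩ := h
    dsimp only at h1 h10
    exact slack_env hx h1 (core_shift h3 h4 h5) (by omega)
  | sh =>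
    obtain ⟨hx, w, c, t, lg, i, i', r, h1, h2, h3, h4, h5, h6, h7, h8, h9⟩ := h
    dsimp only at h1 h9
    exact slack_env hx h1 h3 (by omega)
  | cb =>
    obtain ⟨hx, w, c, t, lg, i, h1, h2, h3, h4, h5, h6, h7, h8⟩ := h
    dsimp only at h1 h8
    exact slack_env hx h1 h3 (by omega)
  | qrev =>
    obtain ⟨hx, hp, w, t, i, h1, h2, h3, h4, h5, h6, h7, h8, h9, h10⟩ := h
    dsimp only at h2 h10
    rw [← h1]
    have hm := h6.1
    refine nf_of_slack hx h3 h6.2.2 ?_
    have : t.length = old.length + O.length + nw.length := by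
      rw [h2]; simp only [List.length_append, List.length_reverse]
    omega
  | rw1 =>
    obtain ⟨hx, h1, h2, h3, h4, h5, h6, h7, h8, h9⟩ := h
    dsimp only at h7 h9
    have h0 := List.length_pos_iff.2 hx
    apply short_not
    rw [← h7, List.length_reverse]
    omega
  | rw2 =>
    obtain ⟨hx, h1, h2, h3, h4, h5, h6, h7, h8, h9, h10, h11⟩ := h
    dsimp only at h10 h11
    have h0 := List.length_pos_iff.2 hx
    apply short_not
    rw [← h10, List.length_reverse]
    omega
  | rw3 =>
    obtain ⟨hx, h1, h2, h3, h4, h5, h6, h7, h8, h9, h10, h11, h12⟩ := h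
    dsimp only at h11 h12
    have h0 := List.length_pos_iff.2 hx
    apply short_not
    rw [← h11, List.length_reverse]
    omega

theorem found_inv (s : AC) (h : Inv x u φ s) (hs : s.pc = .found) : x <:+: u := by
  obtain ⟨pc, ph, tg, XL, XR, Y, SL, SR, P, N, M, E, nw, old, O⟩ := s
  dsimp only at hs
  subst hs
  exact h

theorem hash_dead (s : AC) (h : Inv x u φ s) : (ainp s .hash).pc = .dead := by
  obtain ⟨pc, ph, tg, XL, XR, Y, SL, SR, P, N, M, E, nw, old, O⟩ := s
  cases pc <;> first
    | exact h.elim
    | rfl

theorem dead_step (s : AC) (h : s.pc = .dead) : (astep s).pc = .dead := by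
  obtain ⟨pc, ph, tg, XL, XR, Y, SL, SR, P, N, M, E, nw, old, O⟩ := s
  dsimp only at h
  subst h
  rfl

theorem dead_iter (n : ℕ) : ∀ s : AC, s.pc = .dead → (astep^[n] s).pc = .dead := by
  induction n with
  | zero => intro s h; exact h
  | succ n ih => intro s h; rw [Function.iterate_succ_apply]; exact ih _ (dead_step s h)

theorem dead_tot (s : AC) (l : Letter) (h : s.pc = .dead) : (atot s l).pc = .dead := by
  unfold atot
  apply dead_iter
  obtain ⟨pc, ph, tg, XL, XR, Y, SL, SR, P, N, M, E, nw, old, O⟩ := s
  dsimp only at h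
  subst h
  cases l <;> rfl

theorem dead_fold (w : List Letter) : ∀ s : AC, s.pc = .dead → (w.foldl atot s).pc = .dead := by
  induction w with
  | nil => intro s h; exact h
  | cons a w ih => intro s h; exact ih _ (dead_tot s a h)

/-- the state while the pattern is being read -/
def rd (l : List Bool) : AC := ⟨.read, false, false, [], l, l, [], [], [], [], [], [], [], [], []⟩

theorem read_iter (n : ℕ) (l : List Bool) : astep^[n] (rd l) = rd l := by
  induction n with
  | zero => rfl
  | succ n ih =>
    rw [Function.iterate_succ_apply]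
    exact ih

theorem read_fold (v : List Bool) : ∀ l : List Bool,
    (v.map Letter.bit).foldl atot (rd l) = rd (v.reverse ++ l) := by
  induction v with
  | nil => intro l; rfl
  | cons b v ih =>
    intro l
    have h : atot (rd l) (.bit b) = rd (b :: l) := read_iter 47 (b :: l)
    rw [List.map_cons, List.foldl_cons, h, ih]
    simp

theorem start_inv (x : List Bool) : Inv x [] (40 * x.length) (atot (rd x) .hash) := by
  have h : Inv x [] (40 * x.length + 1) (ainp (rd x) .hash) := by
    refine ⟨rfl, rfl, rfl, rfl, rfl, rfl, rfl, rfl, rfl, rfl, rfl, rfl, rfl, by omega,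
      fun _ => ?_⟩
    show 27 * x.length + 47 * 0 ≤ 40 * x.length + 1 + 8
    omega
  exact inv_mono (iter_inv 47 _ _ h) (by omega)

theorem bit_inv (b : Bool) (s : AC) (h : Inv x u (40 * x.length) s) :
    Inv x (u ++ [b]) (40 * x.length) (atot s (.bit b)) :=
  inv_mono (iter_inv 47 _ _ (inv_inp b s h)) (by omega)

theorem bits_inv (v : List Bool) : ∀ (u : List Bool) (s : AC), Inv x u (40 * x.length) s →
    Inv x (u ++ v) (40 * x.length) ((v.map Letter.bit).foldl atot s) := by
  induction v with
  | nil => intro u s h; simpa using h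
  | cons b v ih =>
    intro u s h
    rw [List.map_cons, List.foldl_cons]
    have := ih (u ++ [b]) _ (bit_inv b s h)
    rwa [List.append_assoc] at this

theorem split_word (w : List Letter) : (∃ v : List Bool, w = v.map Letter.bit) ∨
    ∃ (v : List Bool) (r : List Letter), w = v.map Letter.bit ++ Letter.hash :: r := by
  induction w with
  | nil => exact Or.inl ⟨[], rfl⟩
  | cons a w ih =>
    cases a with
    | hash => exact Or.inr ⟨[], w, rfl⟩
    | bit b =>
      rcases ih with ⟨v, rfl⟩ | ⟨v, r, rfl⟩
      · exact Or.inl ⟨b :: v, rfl⟩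
      · exact Or.inr ⟨b :: v, r, rfl⟩

theorem word_uniq : ∀ (v v' : List Bool) (r r' : List Letter),
    v.map Letter.bit ++ Letter.hash :: r = v'.map Letter.bit ++ Letter.hash :: r' →
    v = v' ∧ r = r' := by
  intro v
  induction v with
  | nil =>
    intro v' r r' h
    cases v' with
    | nil => simpa using h
    | cons b v' => simp at h
  | cons a v ih =>
    intro v' r r' h
    cases v' with
    | nil => simp at h
    | cons b v' =>
      simp only [List.map_cons, List.cons_append, List.cons.injEq, Letter.bit.injEq] at h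
      obtain ⟨h1, h2⟩ := ih v' r r' h.2
      exact ⟨by rw [h.1, h1], h2⟩

theorem not_bits (v v' : List Bool) (r : List Letter) :
    v.map Letter.bit ≠ v'.map Letter.bit ++ Letter.hash :: r := by
  intro h
  have h1 : Letter.hash ∈ v.map Letter.bit := by rw [h]; simp
  simp at h1

theorem map_bit_inj {v v' : List Bool} (h : v.map Letter.bit = v'.map Letter.bit) : v = v' :=
  List.map_injective_iff.2 (fun a b h => by injection h) h

/-- correctness of the abstract program -/
theorem abstract_correct (w : List Letter) :
    (w.foldl atot ainit).pc = .found ↔ w ∈ RevPattern := by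
  have hinit : ainit = rd [] := rfl
  rcases split_word w with ⟨v, rfl⟩ | ⟨v, r, rfl⟩
  · rw [hinit, read_fold]
    constructor
    · intro h; exact absurd h (by simp [rd])
    · rintro ⟨v', u', h, _⟩
      exact absurd h (not_bits _ _ _)
  · rw [hinit, List.foldl_append, read_fold, List.foldl_cons, List.append_nil]
    rcases split_word r with ⟨u, rfl⟩ | ⟨u, r', rfl⟩
    · have h := bits_inv u [] _ (start_inv v.reverse)
      rw [List.nil_append] at h
      constructor
      · intro hf
        obtain ⟨s, t, hst⟩ := found_inv _ h hf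
        exact ⟨v, u, rfl, s, t, hst.symm⟩
      · rintro ⟨v', u', he, u₁, u₂, hu⟩
        obtain ⟨h1, h2⟩ := word_uniq _ _ _ _ he
        have h3 := map_bit_inj h2
        by_contra hf
        apply slack _ h hf
        rw [h3, h1]
        exact ⟨u₁, u₂, hu.symm⟩
    · have h := bits_inv u [] _ (start_inv v.reverse)
      rw [List.foldl_append, List.foldl_cons]
      have h1 : (List.foldl atot (atot (atot (rd v.reverse) Letter.hash |>
          fun s => (u.map Letter.bit).foldl atot s) Letter.hash) r').pc = .dead := by
        apply dead_fold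
        unfold atot
        apply dead_iter
        exact hash_dead _ h
      constructor
      · intro hf
        rw [show (List.foldl atot (atot (List.foldl atot (atot (rd v.reverse) Letter.hash)
          (u.map Letter.bit)) Letter.hash) r').pc = .dead from h1] at hf
        exact absurd hf (by simp)
      · rintro ⟨v', u', he, _⟩
        obtain ⟨_, h2⟩ := word_uniq _ _ _ _ he
        exact absurd h2.symm (not_bits _ _ _)

/-- The reversed pattern language is decided in realtime by a deterministic multitape Turing
machine. -/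
theorem revPattern_mem : RevPattern ∈ REALTIME Letter := by
  have h := realtime_of_prog theProg
  have he : {w : List Letter | (theProg.runS w).1 ∈ theProg.acc} = RevPattern := by
    ext w
    rw [← abstract_correct w]
    show (theProg.runS w).1 ∈ theProg.acc ↔ _
    rw [conc_run]
    rfl
  rw [he] at h
  exact h

end Pool.Agent.Lib.RT45
end
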